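import Pool.Agent.FS77.Nullity

namespace Pool.Agent.FS77

open Matrix Module LinearMap
open scoped Kronecker

variable {K : Type*} [Field K]

/-- nullity of `(M - μ)^a` for a matrix -/
noncomputable def num {κ : Type*} [Fintype κ] [DecidableEq κ] (M : Matrix κ κ K) (μ : K) (a : ℕ) :
    ℕ := nua (Matrix.toLin' M) μ a

section
variable {κ m n : Type*} [Fintype κ] [DecidableEq κ] [Fintype m] [DecidableEq m] [Fintype n]
  [DecidableEq n]

theorem geo_eq (M : Matrix κ κ K) (μ : K) (a : ℕ) : geo M μ a = num M μ a := by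
  unfold geo num nua nu
  rw [Module.End.genEigenspace_nat, Algebra.algebraMap_eq_smul_one]

theorem num_reindex (e : m ≃ n) (M : Matrix m m K) (μ : K) (a : ℕ) :
    num (reindex e e M) μ a = num M μ a := by
  unfold num
  refine (nua_eq_of_equiv (LinearEquiv.funCongrLeft K K e.symm) _ _ ?_ μ a).symm
  intro v
  ext i
  simp only [LinearEquiv.funCongrLeft_apply, LinearMap.funLeft_apply, Matrix.toLin'_apply,
    Matrix.reindex_apply, Matrix.mulVec, dotProduct, Matrix.submatrix_apply]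
  exact Fintype.sum_equiv e _ _ fun j => by simp

/-- nullity for block triangular matrices, tensored with `T` -/
theorem num_fromBlocks (X : Matrix m m K) (Y : Matrix m n K) (Z : Matrix n n K)
    (T : Matrix κ κ K) (μ : K) (a : ℕ) :
    num ((fromBlocks X Y 0 Z) ⊗ₖ T) μ a ≤ num (X ⊗ₖ T) μ a + num (Z ⊗ₖ T) μ a := by
  unfold num
  let i : (m × κ → K) →ₗ[K] ((m ⊕ n) × κ → K) :=
    { toFun := fun v p => Sum.elim (fun j => v (j, p.2)) (fun _ => 0) p.1
      map_add' := by
        intro v w; ext ⟨j, k⟩; rcases j with j | j <;> simp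
      map_smul' := by
        intro c v; ext ⟨j, k⟩; rcases j with j | j <;> simp }
  let π : ((m ⊕ n) × κ → K) →ₗ[K] (n × κ → K) :=
    { toFun := fun v p => v (Sum.inr p.1, p.2)
      map_add' := by intro v w; rfl
      map_smul' := by intro c v; rfl }
  refine nua_le_of_exact i π ?_ ?_ _ _ _ ?_ ?_ μ a
  · intro v hv
    refine ⟨fun p => v (Sum.inl p.1, p.2), ?_⟩
    ext ⟨j, k⟩
    rcases j with j | j
    · rfl
    · have := congrFun (LinearMap.mem_ker.mp hv) (j, k)
      simp only [π, LinearMap.coe_mk, AddHom.coe_mk, Pi.zero_apply] at this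
      simp [i, this]
  · intro v w h
    ext ⟨j, k⟩
    have := congrFun h (Sum.inl j, k)
    simpa [i] using this
  · apply LinearMap.ext; intro v
    funext p
    obtain ⟨j, k⟩ := p
    rcases j with j | j
    · simp [i, Matrix.mulVec, dotProduct, Fintype.sum_prod_type, Matrix.kroneckerMap_apply]
    · simp [i, Matrix.mulVec, dotProduct, Fintype.sum_prod_type, Matrix.kroneckerMap_apply]
  · apply LinearMap.ext; intro v
    funext p
    obtain ⟨j, k⟩ := p
    simp [π, Matrix.mulVec, dotProduct, Fintype.sum_prod_type, Matrix.kroneckerMap_apply]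

theorem charpoly_fromBlocks (X : Matrix m m K) (Y : Matrix m n K) (Z : Matrix n n K)
    (T : Matrix κ κ K) :
    ((fromBlocks X Y 0 Z) ⊗ₖ T).charpoly = (X ⊗ₖ T).charpoly * (Z ⊗ₖ T).charpoly := by
  rw [← Matrix.charpoly_reindex (Equiv.sumProdDistrib m n κ)]
  have : reindex (Equiv.sumProdDistrib m n κ) (Equiv.sumProdDistrib m n κ)
      ((fromBlocks X Y 0 Z) ⊗ₖ T) = fromBlocks (X ⊗ₖ T) (Y ⊗ₖ T) 0 (Z ⊗ₖ T) := by
    ext (⟨j, k⟩ | ⟨j, k⟩) (⟨j', k'⟩ | ⟨j', k'⟩) <;>
    simp [Equiv.sumProdDistrib, Matrix.kroneckerMap_apply]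
  rw [this, Matrix.charpoly_fromBlocks_zero₂₁]

omit [Fintype κ] [DecidableEq κ] in
theorem one_kron_reindex (c : K) (T : Matrix κ κ K) :
    (c • (1 : Matrix Unit Unit K)) ⊗ₖ T
      = reindex (Equiv.punitProd κ).symm (Equiv.punitProd κ).symm (c • T) := by
  ext ⟨_, k⟩ ⟨_, k'⟩
  simp [Matrix.kroneckerMap_apply]

theorem num_unit (c : K) (T : Matrix κ κ K) (μ : K) (a : ℕ) :
    num ((c • (1 : Matrix Unit Unit K)) ⊗ₖ T) μ a = num (c • T) μ a := by
  rw [one_kron_reindex]
  exact num_reindex (Equiv.punitProd κ).symm (c • T) μ a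

theorem charpoly_unit (c : K) (T : Matrix κ κ K) :
    ((c • (1 : Matrix Unit Unit K)) ⊗ₖ T).charpoly = (c • T).charpoly := by
  rw [one_kron_reindex]
  exact Matrix.charpoly_reindex (Equiv.punitProd κ).symm (c • T)

end

end Pool.Agent.FS77
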