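import Pool.Agent.FS77.Rec

/-!
The weight functional and the upper bound for the geometric multiplicity.
-/

namespace Pool.Agent.FS77

open Matrix Module Kronecker

section
variable {K : Type*} [Field K]

open Classical in
/-- sum over all words of length `N` in the letters `J, Λ` with product `μ` (the letter `J` has
value `c`) of the weight `w (number of letters J)` -/
noncomputable def SS (c : K) (Λ : Multiset K) : (ℕ → ℝ) → ℕ → K → ℝ
  | w, 0, μ => if μ = 1 then w 0 else 0
  | w, N + 1, μ => SS c Λ (fun k => w (k + 1)) N (μ / c) + (Λ.map fun l => SS c Λ w N (μ / l)).sum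

variable (c : K) (Λ : Multiset K)

theorem SS_mono (N : ℕ) : ∀ (w w' : ℕ → ℝ) (μ : K), (∀ k, w k ≤ w' k) →
    SS c Λ w N μ ≤ SS c Λ w' N μ := by
  induction N with
  | zero =>
    intro w w' μ h
    simp only [SS]
    split_ifs
    · exact h 0
    · exact le_rfl
  | succ N ih =>
    intro w w' μ h
    simp only [SS]
    refine add_le_add (ih _ _ _ fun k => h (k + 1)) ?_
    exact Multiset.sum_map_le_sum_map _ _ fun l _ => ih _ _ _ h

theorem SS_add (N : ℕ) : ∀ (w w' : ℕ → ℝ) (μ : K),
    SS c Λ (fun k => w k + w' k) N μ = SS c Λ w N μ + SS c Λ w' N μ := by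
  induction N with
  | zero =>
    intro w w' μ
    simp only [SS]
    split_ifs <;> simp
  | succ N ih =>
    intro w w' μ
    simp only [SS]
    rw [ih (fun k => w (k + 1)) (fun k => w' (k + 1))]
    have : (Λ.map fun l => SS c Λ (fun k => w k + w' k) N (μ / l)).sum
        = (Λ.map fun l => SS c Λ w N (μ / l)).sum + (Λ.map fun l => SS c Λ w' N (μ / l)).sum := by
      rw [← Multiset.sum_map_add]
      congr 1
      exact Multiset.map_congr rfl fun l _ => ih _ _ _
    rw [this]
    ring

theorem SS_smul (N : ℕ) : ∀ (t : ℝ) (w : ℕ → ℝ) (μ : K),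
    SS c Λ (fun k => t * w k) N μ = t * SS c Λ w N μ := by
  induction N with
  | zero =>
    intro t w μ
    simp only [SS]
    split_ifs <;> simp
  | succ N ih =>
    intro t w μ
    simp only [SS]
    rw [ih t (fun k => w (k + 1))]
    have : (Λ.map fun l => SS c Λ (fun k => t * w k) N (μ / l)).sum
        = t * (Λ.map fun l => SS c Λ w N (μ / l)).sum := by
      rw [← Multiset.sum_map_mul_left]
      congr 1
      exact Multiset.map_congr rfl fun l _ => ih _ _ _
    rw [this]
    ring

theorem SS_one (N : ℕ) : ∀ (μ : K), SS c Λ (fun _ => 1) N μ ≤ ((Multiset.card Λ : ℝ) + 1) ^ N := by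
  induction N with
  | zero =>
    intro μ
    simp only [SS]
    split_ifs <;> simp
  | succ N ih =>
    intro μ
    simp only [SS]
    have h1 := ih (μ / c)
    have h2 : (Λ.map fun l => SS c Λ (fun _ => 1) N (μ / l)).sum
        ≤ (Multiset.card Λ : ℝ) * ((Multiset.card Λ : ℝ) + 1) ^ N := by
      have := Multiset.sum_le_card_nsmul (Λ.map fun l => SS c Λ (fun _ => 1) N (μ / l))
        (((Multiset.card Λ : ℝ) + 1) ^ N) (by
          intro x hx
          rw [Multiset.mem_map] at hx
          obtain ⟨l, _, rfl⟩ := hx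
          exact ih _)
      rw [Multiset.card_map, nsmul_eq_mul] at this
      exact this
    calc _ ≤ ((Multiset.card Λ : ℝ) + 1) ^ N
        + (Multiset.card Λ : ℝ) * ((Multiset.card Λ : ℝ) + 1) ^ N := add_le_add h1 h2
      _ = ((Multiset.card Λ : ℝ) + 1) ^ (N + 1) := by ring

end

section jordan
universe u
variable {K : Type u} [Field K] [IsAlgClosed K] [CharZero K]

/-- The basic inequality: the geometric multiplicity is small compared with the algebraic one,
up to an exponentially smaller error. -/
theorem geo_bound {b : ℕ} (A : Matrix (Fin b) (Fin b) K) (hA : A.det ≠ 0)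
    (hs : ¬ Module.End.IsSemisimple (Matrix.toLin' A)) (L N : ℕ) (μ : K) (a : ℕ) :
    2 ≤ b ∧ (geo (kpow A N) μ a : ℝ) ≤ 2 ^ L * ((b : ℝ) - 1) ^ N
      + a * ((alg (kpow A N) μ : ℝ) / Real.sqrt (L + 1)) := by
  obtain ⟨c, Λ, hcard, h1, h2⟩ := rec_jordan A hA hs
  refine ⟨by omega, ?_⟩
  have key : ∀ N μ a, (num (kpow A N) μ a : ℝ) ≤ SS c Λ (fun k => (kk k a : ℝ)) N μ := by
    intro N
    induction N with
    | zero =>
      intro μ a
      have := num_base A μ a
      simp only [SS]
      split_ifs with h
      · rw [if_pos h] at this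
        exact_mod_cast this
      · rw [if_neg h] at this
        exact_mod_cast this
    | succ N ih =>
      intro μ a
      rcases a with _ | a
      · rw [num_zero]
        have h0 : ∀ k, (kk k 0 : ℝ) = 0 := by
          intro k; cases k <;> simp [kk]
        have : SS c Λ (fun _ => (0 : ℝ)) (N + 1) μ = 0 := by
          have := SS_smul c Λ (N + 1) 0 (fun _ => (0 : ℝ)) μ
          simpa using this
        simp only [h0, this, Nat.cast_zero, le_refl]
      · have e := h1 N μ a
        have e' : (num (kpow A (N + 1)) μ (a + 1) : ℝ) ≤ num (kpow A N) (μ / c) a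
            + num (kpow A N) (μ / c) (a + 2)
            + (Λ.map fun l => (num (kpow A N) (μ / l) (a + 1) : ℝ)).sum := by
          have e2 : ((Λ.map fun l => num (kpow A N) (μ / l) (a + 1)).sum : ℝ)
              = (Λ.map fun l => (num (kpow A N) (μ / l) (a + 1) : ℝ)).sum := by
            rw [Nat.cast_multiset_sum, Multiset.map_map]
            rfl
          rw [← e2]
          exact_mod_cast e
        refine e'.trans ?_
        simp only [SS, kk, Nat.cast_add]
        rw [SS_add c Λ N (fun k => (kk k a : ℝ)) (fun k => (kk k (a + 2) : ℝ))]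
        exact add_le_add (add_le_add (ih _ _) (ih _ _))
          (Multiset.sum_map_le_sum_map _ _ fun l _ => ih _ _)
  have key2 : ∀ N μ, (alg (kpow A N) μ : ℝ) = SS c Λ (fun k => (2 : ℝ) ^ k) N μ := by
    intro N
    induction N with
    | zero =>
      intro μ
      rw [alg_base]
      simp only [SS]
      split_ifs <;> simp
    | succ N ih =>
      intro μ
      rw [h2 N μ]
      simp only [SS]
      have e2 : ((Λ.map fun l => alg (kpow A N) (μ / l)).sum : ℝ)
          = (Λ.map fun l => SS c Λ (fun k => (2 : ℝ) ^ k) N (μ / l)).sum := by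
        rw [Nat.cast_multiset_sum, Multiset.map_map]
        congr 1
        exact Multiset.map_congr rfl fun l _ => ih _
      have e3 : SS c Λ (fun k => (2 : ℝ) ^ (k + 1)) N (μ / c)
          = 2 * SS c Λ (fun k => (2 : ℝ) ^ k) N (μ / c) := by
        rw [← SS_smul]
        congr 1
        funext k
        ring
      rw [e3, ← ih, Nat.cast_add, Nat.cast_mul, e2, Nat.cast_ofNat]
  rw [geo_eq]
  refine (key N μ a).trans ?_
  refine (SS_mono c Λ N _ (fun k => 2 ^ L * 1 + (a / Real.sqrt (L + 1)) * 2 ^ k) μ ?_).trans ?_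
  · intro k
    refine (kk_bound L k a).trans (le_of_eq ?_)
    ring
  · rw [SS_add c Λ N (fun _ => 2 ^ L * 1) (fun k => (a / Real.sqrt (L + 1)) * 2 ^ k),
      SS_smul c Λ N (2 ^ L) (fun _ => 1), SS_smul c Λ N (a / Real.sqrt (L + 1)) (fun k => 2 ^ k),
      ← key2]
    refine add_le_add ?_ (le_of_eq (by ring))
    apply mul_le_mul_of_nonneg_left _ (by positivity)
    refine (SS_one c Λ N μ).trans (le_of_eq ?_)
    have : (Multiset.card Λ : ℝ) + 2 = b := by exact_mod_cast hcard
    rw [← this]
    ring

end jordan

end Pool.Agent.FS77
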