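import Pool.Agent.FS77.Rec

/-!
The lower bound for the algebraic multiplicity of `Q ^ n` on the `2n`-th Kronecker power.
-/

namespace Pool.Agent.FS77

open Matrix Module Kronecker

section sym
variable {K : Type*} [Field K]

theorem num_rank {κ : Type*} [Fintype κ] [DecidableEq κ] (T : Matrix κ κ K) (μ : K) (a : ℕ) :
    num T μ a + ((T - Matrix.scalar κ μ) ^ a).rank = Fintype.card κ := by
  unfold num nua nu
  have e : (Matrix.toLin' T - algebraMap K (Module.End K (κ → K)) μ) ^ a
      = Matrix.toLin' ((T - Matrix.scalar κ μ) ^ a) := by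
    rw [Matrix.toLin'_pow, map_sub]
    congr 2
    ext v i
    by_cases h : i = v
    · subst h; simp
    · simp [Pi.single_eq_of_ne h]
  rw [e, Matrix.rank, ← Matrix.toLin'_apply', add_comm,
    LinearMap.finrank_range_add_finrank_ker, Module.finrank_fintype_fun_eq_card]

theorem num_symm {κ : Type*} [Fintype κ] [DecidableEq κ] (B P : Matrix κ κ K) (q : K)
    (hB : B.det ≠ 0) (hP : P.det ≠ 0) (h : Bᵀ * P * B = q • P) (ν : K) (hν : ν ≠ 0) (a : ℕ) :
    num B (q / ν) a = num B ν a := by
  have key : ∀ a : ℕ, ((B - Matrix.scalar κ ν)ᵀ) ^ a * P * B ^ a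
      = (-ν) ^ a • (P * (B - Matrix.scalar κ (q / ν)) ^ a) := by
    intro a
    induction a with
    | zero => simp
    | succ a ih =>
      have h1 : (B - Matrix.scalar κ ν)ᵀ * P * B
          = (-ν) • (P * (B - Matrix.scalar κ (q / ν))) := by
        rw [Matrix.transpose_sub, Matrix.sub_mul, Matrix.sub_mul, h, Matrix.mul_sub, smul_sub]
        have e1 : (Matrix.scalar κ ν)ᵀ * P * B = ν • (P * B) := by
          rw [Matrix.scalar_apply, Matrix.diagonal_transpose, Matrix.mul_assoc,
            ← Matrix.smul_eq_diagonal_mul]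
        have e2 : P * Matrix.scalar κ (q / ν) = (q / ν) • P := by
          rw [Matrix.scalar_apply, ← Matrix.op_smul_eq_mul_diagonal]
          ext i j
          simp [mul_comm, div_eq_mul_inv]
        rw [e1, e2, smul_smul]
        have : -ν * (q / ν) = - q := by field_simp
        rw [this, neg_smul, neg_smul]
        abel
      have hc : Commute (B - Matrix.scalar κ (q / ν)) B := by
        apply Commute.sub_left (Commute.refl _)
        exact (Matrix.scalar_commute _ (fun r => Commute.all _ _) _)
      calc ((B - Matrix.scalar κ ν)ᵀ) ^ (a + 1) * P * B ^ (a + 1)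
          = ((B - Matrix.scalar κ ν)ᵀ) ^ a * ((B - Matrix.scalar κ ν)ᵀ * P * B) * B ^ a := by
            rw [pow_succ, pow_succ' B]; simp only [Matrix.mul_assoc]
        _ = (-ν) • (((B - Matrix.scalar κ ν)ᵀ) ^ a * (P * ((B - Matrix.scalar κ (q / ν))
              * B ^ a))) := by
            rw [h1]
            simp only [Matrix.mul_smul, Matrix.smul_mul, Matrix.mul_assoc]
        _ = (-ν) • ((((B - Matrix.scalar κ ν)ᵀ) ^ a * P * B ^ a)
              * (B - Matrix.scalar κ (q / ν))) := by
            rw [(hc.pow_right a).eq]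
            simp only [Matrix.mul_assoc]
        _ = (-ν) ^ (a + 1) • (P * (B - Matrix.scalar κ (q / ν)) ^ (a + 1)) := by
            rw [ih]
            simp only [Matrix.smul_mul, smul_smul, Matrix.mul_assoc, pow_succ]
            rw [mul_comm]
  have hr : ((B - Matrix.scalar κ ν) ^ a).rank = ((B - Matrix.scalar κ (q / ν)) ^ a).rank := by
    have e1 : (((B - Matrix.scalar κ ν)ᵀ) ^ a * P * B ^ a).rank
        = ((B - Matrix.scalar κ ν) ^ a).rank := by
      rw [Matrix.rank_mul_eq_left_of_isUnit_det, Matrix.rank_mul_eq_left_of_isUnit_det,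
        ← Matrix.transpose_pow, Matrix.rank_transpose]
      · exact isUnit_iff_ne_zero.mpr hP
      · rw [Matrix.det_pow]
        exact isUnit_iff_ne_zero.mpr (pow_ne_zero _ hB)
    have e2 : ((-ν) ^ a • (P * (B - Matrix.scalar κ (q / ν)) ^ a)).rank
        = ((B - Matrix.scalar κ (q / ν)) ^ a).rank := by
      rw [← Matrix.smul_mul, Matrix.rank_mul_eq_right_of_isUnit_det]
      rw [Matrix.det_smul]
      exact isUnit_iff_ne_zero.mpr (mul_ne_zero (pow_ne_zero _ (pow_ne_zero _ (neg_ne_zero.mpr hν)))
        hP)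
    rw [← e1, ← e2, key a]
  have n1 := num_rank B ν a
  have n2 := num_rank B (q / ν) a
  omega

end sym

section count
universe u
variable {K : Type u} [Field K] [IsAlgClosed K]

/-- the number of different eigenvalues of the Kronecker powers grows polynomially -/
theorem supp_form {b : ℕ} (A : Matrix (Fin b) (Fin b) K) (hA : A.det ≠ 0) (E : Finset K)
    (hE : ∀ x, x ∈ A.charpoly.roots ↔ x ∈ E) (n : ℕ) :
    ∀ μ, alg (kpow A n) μ ≠ 0 → ∃ k : E → ℕ, ∑ e, k e = n ∧ ∏ e : E, (e : K) ^ (k e) = μ := by
  classical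
  induction n with
  | zero =>
    intro μ h
    rw [alg_base] at h
    have : μ = 1 := by
      by_contra h'
      exact h (if_neg h')
    subst this
    exact ⟨fun _ => 0, by simp, by simp⟩
  | succ n ih =>
    intro μ h
    rw [alg_kpow_succ A hA] at h
    have : ∃ l ∈ A.charpoly.roots, alg (kpow A n) (μ / l) ≠ 0 := by
      by_contra h'
      push Not at h'
      apply h
      apply Multiset.sum_eq_zero
      intro x hx
      rw [Multiset.mem_map] at hx
      obtain ⟨l, hl, rfl⟩ := hx
      exact h' l hl
    obtain ⟨l, hl, hne⟩ := this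
    have hl0 : l ≠ 0 := by
      rintro rfl
      rw [Polynomial.mem_roots (Matrix.charpoly_monic _).ne_zero,
        Polynomial.IsRoot.def, Matrix.eval_charpoly, map_zero, zero_sub, Matrix.det_neg] at hl
      exact hA (by simpa using hl)
    obtain ⟨k, hk1, hk2⟩ := ih _ hne
    let l' : E := ⟨l, (hE l).mp hl⟩
    refine ⟨k + Pi.single l' 1, ?_, ?_⟩
    · simp only [Pi.add_apply, Finset.sum_add_distrib, hk1, Finset.sum_pi_single', Finset.mem_univ,
        if_true]
    · simp only [Pi.add_apply, pow_add, Finset.prod_mul_distrib, hk2]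
      rw [Finset.prod_eq_single l']
      · simp only [Pi.single_eq_same, pow_one]
        exact div_mul_cancel₀ μ hl0
      · intro e _ he
        rw [Pi.single_eq_of_ne he, pow_zero]
      · intro h
        exact absurd (Finset.mem_univ _) h

open Classical in
theorem supp_card {b : ℕ} (A : Matrix (Fin b) (Fin b) K) (hA : A.det ≠ 0) (n : ℕ) :
    (kpow A n).charpoly.roots.toFinset.card ≤ (n + 1) ^ b := by
  set E := A.charpoly.roots.toFinset with hE
  have hEc : E.card ≤ b := by
    refine (Multiset.toFinset_card_le _).trans ?_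
    refine (Polynomial.card_roots' _).trans ?_
    rw [Matrix.charpoly_natDegree_eq_dim, Fintype.card_fin]
  have h1 : (kpow A n).charpoly.roots.toFinset
      ⊆ (Fintype.piFinset (fun _ : E => Finset.range (n + 1))).image
        (fun k : E → ℕ => ∏ e : E, (e : K) ^ (k e)) := by
    intro μ hμ
    rw [Multiset.mem_toFinset, Polynomial.mem_roots (Matrix.charpoly_monic _).ne_zero] at hμ
    have h2 : alg (kpow A n) μ ≠ 0 := by
      unfold alg
      exact (Polynomial.rootMultiplicity_pos (Matrix.charpoly_monic _).ne_zero).mpr hμ |>.ne'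
    obtain ⟨k, hk1, hk2⟩ := supp_form A hA E (by intro x; rw [hE, Multiset.mem_toFinset]) n μ h2
    rw [Finset.mem_image]
    refine ⟨k, ?_, hk2⟩
    rw [Fintype.mem_piFinset]
    intro e
    rw [Finset.mem_range, Nat.lt_succ_iff, ← hk1]
    exact Finset.single_le_sum (fun _ _ => Nat.zero_le _) (Finset.mem_univ e)
  refine (Finset.card_le_card h1).trans (Finset.card_image_le.trans ?_)
  rw [Fintype.card_piFinset]
  simp only [Finset.card_range, Finset.prod_const, Finset.card_univ, Fintype.card_coe]
  exact Nat.pow_le_pow_right (Nat.succ_pos n) hEc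

open Classical in
theorem alg_lower {b : ℕ} (A P : Matrix (Fin b) (Fin b) K) (q : K)
    (hA : A.det ≠ 0) (hP : P.det ≠ 0) (h : Aᵀ * P * A = q • P) (n : ℕ) :
    b ^ (2 * n) ≤ (n + 1) ^ b * alg (kpow A (2 * n)) (q ^ n) := by
  have hB := kpow_det A hA n
  have hP' := kpow_det P hP n
  have hrel : (kpow A n)ᵀ * kpow P n * kpow A n = q ^ n • kpow P n := by
    rw [← kpow_transpose, ← kpow_mul, ← kpow_mul, h, kpow_smul]
  set R := (kpow A n).charpoly.roots with hR
  have hcard : Multiset.card R = b ^ n := by
    rw [hR, ← (IsAlgClosed.splits _).natDegree_eq_card_roots, Matrix.charpoly_natDegree_eq_dim]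
    simp
  have hcount : ∀ μ, R.count μ = alg (kpow A n) μ := fun μ => Polynomial.count_roots _
  have h1 : alg (kpow A (2 * n)) (q ^ n) = ∑ l ∈ R.toFinset, (alg (kpow A n) l) ^ 2 := by
    rw [alg_kpow_two A hA, ← hR, Finset.sum_multiset_map_count]
    apply Finset.sum_congr rfl
    intro l hl
    have hl0 : l ≠ 0 := by
      rintro rfl
      rw [Multiset.mem_toFinset, hR, Polynomial.mem_roots (Matrix.charpoly_monic _).ne_zero,
        Polynomial.IsRoot.def, Matrix.eval_charpoly, map_zero, zero_sub, Matrix.det_neg] at hl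
      exact hB (by simpa using hl)
    have e : alg (kpow A n) (q ^ n / l) = alg (kpow A n) l := by
      rw [alg_eq, alg_eq]
      exact num_symm _ _ _ hB hP' hrel l hl0 _
    rw [e, hcount, smul_eq_mul, sq]
  have h2 : ∑ l ∈ R.toFinset, alg (kpow A n) l = b ^ n := by
    rw [← hcard, ← Multiset.toFinset_sum_count_eq]
    exact Finset.sum_congr rfl fun l _ => (hcount l).symm
  have h3 := sq_sum_le_card_mul_sum_sq (s := R.toFinset) (f := fun l => alg (kpow A n) l)
  rw [h2, ← h1] at h3
  calc b ^ (2 * n) = (b ^ n) ^ 2 := by rw [← pow_mul, mul_comm]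
    _ ≤ R.toFinset.card * alg (kpow A (2 * n)) (q ^ n) := h3
    _ ≤ _ := Nat.mul_le_mul_right _ (supp_card A hA n)

end count

end Pool.Agent.FS77
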