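import Mathlib

/-!
Kronecker powers of a matrix; the generalised eigenspaces.
-/

namespace Pool.Agent.FS77

open Matrix Module

variable {K : Type*} [Field K]

/-- The `N`-th Kronecker power of the matrix `A`. -/
def kpow {ι : Type*} (A : Matrix ι ι K) (N : ℕ) : Matrix (Fin N → ι) (Fin N → ι) K :=
  Matrix.of fun f g => ∏ i, A (f i) (g i)

/-- The dimension of the kernel of `(M - μ) ^ a`; for `a = 1` this is the geometric multiplicity
of `μ`. -/
noncomputable def geo {κ : Type*} [Fintype κ] [DecidableEq κ] (M : Matrix κ κ K) (μ : K) (a : ℕ) :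
    ℕ := finrank K (Module.End.genEigenspace (Matrix.toLin' M) μ a)

/-- The algebraic multiplicity: the multiplicity of `μ` as a root of the characteristic
polynomial. -/
noncomputable def alg {κ : Type*} [Fintype κ] [DecidableEq κ] (M : Matrix κ κ K) (μ : K) : ℕ :=
  M.charpoly.rootMultiplicity μ

end Pool.Agent.FS77
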