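import Pool.Agent.FS77.Rec

/-!
Semisimplicity passes to the Kronecker powers.
-/

namespace Pool.Agent.FS77

open Matrix Module Kronecker

variable {K : Type*} [Field K]

theorem ss_hom {ι κ : Type*} [Fintype ι] [DecidableEq ι] [Fintype κ] [DecidableEq κ]
    (φ : Matrix ι ι K →ₐ[K] Matrix κ κ K) (M : Matrix ι ι K)
    (h : Module.End.IsSemisimple (Matrix.toLin' M)) :
    Module.End.IsSemisimple (Matrix.toLin' (φ M)) := by
  have h1 := h.minpoly_squarefree
  refine Module.End.isSemisimple_of_squarefree_aeval_eq_zero h1 ?_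
  rw [Matrix.minpoly_toLin']
  have e : Polynomial.aeval (Matrix.toLin' (φ M)) (minpoly K M)
      = (Matrix.toLinAlgEquiv' : Matrix κ κ K ≃ₐ[K] Module.End K (κ → K))
        (Polynomial.aeval (φ M) (minpoly K M)) := by
    exact Polynomial.aeval_algHom_apply
      (Matrix.toLinAlgEquiv' : Matrix κ κ K ≃ₐ[K] Module.End K (κ → K)).toAlgHom (φ M) _
  rw [e, Polynomial.aeval_algHom_apply, minpoly.aeval, map_zero, map_zero]

/-- `M ↦ M ⊗ 1` -/
noncomputable def kl (ι κ : Type*) [Fintype ι] [DecidableEq ι] [Fintype κ] [DecidableEq κ] :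
    Matrix ι ι K →ₐ[K] Matrix (ι × κ) (ι × κ) K :=
  AlgHom.ofLinearMap
    { toFun := fun M => M ⊗ₖ (1 : Matrix κ κ K)
      map_add' := fun M N => Matrix.add_kronecker M N 1
      map_smul' := fun c M => Matrix.smul_kronecker c M 1 }
    Matrix.one_kronecker_one (fun M N => by
      change (M * N) ⊗ₖ (1 : Matrix κ κ K) = (M ⊗ₖ 1) * (N ⊗ₖ 1)
      rw [← Matrix.mul_kronecker_mul, one_mul])

/-- `M ↦ 1 ⊗ M` -/
noncomputable def kr (ι κ : Type*) [Fintype ι] [DecidableEq ι] [Fintype κ] [DecidableEq κ] :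
    Matrix κ κ K →ₐ[K] Matrix (ι × κ) (ι × κ) K :=
  AlgHom.ofLinearMap
    { toFun := fun M => (1 : Matrix ι ι K) ⊗ₖ M
      map_add' := fun M N => Matrix.kronecker_add 1 M N
      map_smul' := fun c M => Matrix.kronecker_smul c 1 M }
    Matrix.one_kronecker_one (fun M N => by
      change (1 : Matrix ι ι K) ⊗ₖ (M * N) = (1 ⊗ₖ M) * (1 ⊗ₖ N)
      rw [← Matrix.mul_kronecker_mul, one_mul])

theorem ss_kron [PerfectField K] {ι κ : Type*} [Fintype ι] [DecidableEq ι] [Fintype κ]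
    [DecidableEq κ] (M : Matrix ι ι K) (N : Matrix κ κ K)
    (hM : Module.End.IsSemisimple (Matrix.toLin' M))
    (hN : Module.End.IsSemisimple (Matrix.toLin' N)) :
    Module.End.IsSemisimple (Matrix.toLin' (M ⊗ₖ N)) := by
  have e : M ⊗ₖ N = (kl ι κ M) * (kr ι κ N) := by
    change M ⊗ₖ N = (M ⊗ₖ 1) * (1 ⊗ₖ N)
    rw [← Matrix.mul_kronecker_mul, one_mul, mul_one]
  have e' : M ⊗ₖ N = (kr ι κ N) * (kl ι κ M) := by
    change M ⊗ₖ N = (1 ⊗ₖ N) * (M ⊗ₖ 1)
    rw [← Matrix.mul_kronecker_mul, one_mul, mul_one]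
  have hc : Commute (Matrix.toLin' (kl ι κ M)) (Matrix.toLin' (kr ι κ N)) := by
    change Matrix.toLin' (kl ι κ M) * Matrix.toLin' (kr ι κ N)
      = Matrix.toLin' (kr ι κ N) * Matrix.toLin' (kl ι κ M)
    rw [Module.End.mul_eq_comp, Module.End.mul_eq_comp, ← Matrix.toLin'_mul,
      ← Matrix.toLin'_mul, ← e, ← e']
  have h := Module.End.IsSemisimple.mul_of_commute hc (ss_hom (kl ι κ) M hM)
    (ss_hom (kr ι κ) N hN)
  rw [Module.End.mul_eq_comp, ← Matrix.toLin'_mul, ← e] at h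
  exact h

theorem ss_kpow [PerfectField K] {b : ℕ} (A : Matrix (Fin b) (Fin b) K)
    (hA : Module.End.IsSemisimple (Matrix.toLin' A)) (N : ℕ) :
    Module.End.IsSemisimple (Matrix.toLin' (kpow A N)) := by
  induction N with
  | zero =>
    rw [kpow_zero, Matrix.toLin'_one]
    exact Module.End.isSemisimple_id
  | succ N ih =>
    rw [kpow_succ]
    have h := ss_kron A (kpow A N) hA ih
    exact ss_hom (Matrix.reindexAlgEquiv K K
      (Fin.consEquiv (fun _ => Fin b))).toAlgHom (A ⊗ₖ kpow A N) h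

theorem geo_eq_alg {κ : Type*} [Fintype κ] [DecidableEq κ] (M : Matrix κ κ K)
    (hM : Module.End.IsSemisimple (Matrix.toLin' M)) (μ : K) (a : ℕ) (ha : 1 ≤ a) :
    geo M μ a = alg M μ := by
  have h1 : Module.End.genEigenspace (Matrix.toLin' M) μ a
      = Module.End.maxGenEigenspace (Matrix.toLin' M) μ := by
    apply le_antisymm (Module.End.genEigenspace_le_maximal _ _ _)
    rw [hM.isFinitelySemisimple.maxGenEigenspace_eq_eigenspace]
    exact (Module.End.genEigenspace _ μ).monotone (by exact_mod_cast ha)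
  unfold geo alg
  rw [h1, LinearMap.finrank_maxGenEigenspace_eq, Matrix.charpoly_toLin']

end Pool.Agent.FS77
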