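import Pool.Agent.FS77.Comb
import Pool.Agent.FS77.Count
import Pool.Agent.FS77.Semi

/-!
The zero-one law.
-/

namespace Pool.Agent.FS77

open Matrix Module Kronecker

universe u
variable {K : Type u} [Field K] [IsAlgClosed K] [CharZero K]

theorem ratio_bound {b : ℕ} (A P : Matrix (Fin b) (Fin b) K) (q : K) (hP : P.det ≠ 0)
    (hq : q ≠ 0) (h : Aᵀ * P * A = q • P) (hs : ¬ Module.End.IsSemisimple (Matrix.toLin' A))
    (n : ℕ) (hn : 1 ≤ n) (a : ℕ) :
    (geo (kpow A (2 * n)) (q ^ n) a : ℝ)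
      ≤ (a * Real.sqrt (b / n) + ((n : ℝ) + 1) ^ b * (1 - 1 / (b : ℝ)) ^ n)
        * alg (kpow A (2 * n)) (q ^ n) := by
  have hA : A.det ≠ 0 := by
    have h1 := congrArg Matrix.det h
    rw [Matrix.det_mul, Matrix.det_mul, Matrix.det_smul] at h1
    intro h0
    rw [h0, mul_zero] at h1
    exact mul_ne_zero (pow_ne_zero _ hq) hP h1.symm
  set x : ℝ := (alg (kpow A (2 * n)) (q ^ n) : ℝ) with hx
  obtain ⟨hb, hbd⟩ := geo_bound A hA hs (n / (b - 1)) (2 * n) (q ^ n) a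
  rw [← hx] at hbd
  have hx0 : 0 ≤ x := Nat.cast_nonneg _
  have hb2 : (2 : ℝ) ≤ b := by exact_mod_cast hb
  have hb1 : (0 : ℝ) < (b : ℝ) - 1 := by linarith
  have hn0 : (0 : ℝ) < n := by exact_mod_cast hn
  have hlow : (b : ℝ) ^ (2 * n) ≤ ((n : ℝ) + 1) ^ b * x := by
    have := alg_lower A P q hA hP h n
    rw [hx]
    exact_mod_cast this
  -- first term
  have hcast : ((b - 1 : ℕ) : ℝ) = (b : ℝ) - 1 := by
    rw [Nat.cast_sub (by omega)]; simp
  have t1 : (2 : ℝ) ^ (n / (b - 1)) * ((b : ℝ) - 1) ^ (2 * n)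
      ≤ ((n : ℝ) + 1) ^ b * (1 - 1 / (b : ℝ)) ^ n * x := by
    have s1 : (2 : ℝ) ≤ ((b : ℝ) / ((b : ℝ) - 1)) ^ (b - 1) := by
      have e : (b : ℝ) / ((b : ℝ) - 1) = 1 + 1 / ((b : ℝ) - 1) := by field_simp; ring
      rw [e]
      have := one_add_mul_le_pow (a := 1 / ((b : ℝ) - 1)) (by
        have : 0 < 1 / ((b : ℝ) - 1) := by positivity
        linarith) (b - 1)
      rw [hcast, mul_one_div_cancel hb1.ne'] at this
      linarith
    have s2 : (2 : ℝ) ^ (n / (b - 1)) ≤ ((b : ℝ) / ((b : ℝ) - 1)) ^ n := by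
      have hr : 1 ≤ (b : ℝ) / ((b : ℝ) - 1) := by
        rw [le_div_iff₀ hb1]; linarith
      calc (2 : ℝ) ^ (n / (b - 1)) ≤ (((b : ℝ) / ((b : ℝ) - 1)) ^ (b - 1)) ^ (n / (b - 1)) :=
            pow_le_pow_left₀ (by norm_num) s1 _
        _ = ((b : ℝ) / ((b : ℝ) - 1)) ^ ((b - 1) * (n / (b - 1))) := by rw [← pow_mul]
        _ ≤ ((b : ℝ) / ((b : ℝ) - 1)) ^ n := pow_le_pow_right₀ hr (Nat.mul_div_le n (b - 1))
    calc (2 : ℝ) ^ (n / (b - 1)) * ((b : ℝ) - 1) ^ (2 * n)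
        ≤ ((b : ℝ) / ((b : ℝ) - 1)) ^ n * ((b : ℝ) - 1) ^ (2 * n) :=
          mul_le_mul_of_nonneg_right s2 (by positivity)
      _ = (1 - 1 / (b : ℝ)) ^ n * (b : ℝ) ^ (2 * n) := by
          rw [pow_mul, pow_mul, ← mul_pow, ← mul_pow]
          congr 1
          field_simp
      _ ≤ (1 - 1 / (b : ℝ)) ^ n * (((n : ℝ) + 1) ^ b * x) := by
          apply mul_le_mul_of_nonneg_left hlow
          apply pow_nonneg
          rw [sub_nonneg, div_le_one (by linarith)]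
          linarith
      _ = _ := by ring
  have t2 : x / Real.sqrt (((n / (b - 1) : ℕ) : ℝ) + 1) ≤ Real.sqrt (b / n) * x := by
    have hL : (n : ℝ) / b ≤ ((n / (b - 1) : ℕ) : ℝ) + 1 := by
      have s3 : n < (b - 1) * (n / (b - 1) + 1) := Nat.lt_mul_div_succ n (by omega)
      have s4 : (n : ℝ) ≤ ((b : ℝ) - 1) * (((n / (b - 1) : ℕ) : ℝ) + 1) := by
        rw [← hcast]
        exact_mod_cast s3.le
      rw [div_le_iff₀ (by linarith)]
      have s5 : (0 : ℝ) ≤ ((n / (b - 1) : ℕ) : ℝ) + 1 := by positivity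
      nlinarith
    have s6 : Real.sqrt (b / n) = 1 / Real.sqrt (n / b) := by
      rw [one_div, ← Real.sqrt_inv, inv_div]
    rw [s6, div_eq_mul_one_div, mul_comm]
    apply mul_le_mul_of_nonneg_right _ hx0
    apply one_div_le_one_div_of_le
    · apply Real.sqrt_pos.mpr
      have : (0 : ℝ) < b := by linarith
      positivity
    · exact Real.sqrt_le_sqrt hL
  calc (geo (kpow A (2 * n)) (q ^ n) a : ℝ) ≤ _ := hbd
    _ ≤ ((n : ℝ) + 1) ^ b * (1 - 1 / (b : ℝ)) ^ n * x + a * (Real.sqrt (b / n) * x) :=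
        add_le_add t1 (mul_le_mul_of_nonneg_left t2 (Nat.cast_nonneg _))
    _ = _ := by ring

end Pool.Agent.FS77
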