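import Pool.Agent.FS77.Blocks

namespace Pool.Agent.FS77

open Matrix Module LinearMap
open scoped Kronecker

variable {K : Type*} [Field K]

theorem nu_prodMap {V W : Type*} [AddCommGroup V] [Module K V] [AddCommGroup W] [Module K W]
    [FiniteDimensional K V] [FiniteDimensional K W] (A : Module.End K V) (B : Module.End K W) :
    nu (LinearMap.prodMap A B : Module.End K (V × W)) ≤ nu A + nu B := by
  refine nu_le_of_exact (LinearMap.inl K V W) (LinearMap.snd K V W) ?_ LinearMap.inl_injective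
    _ _ _ ?_ ?_
  · intro v hv
    refine ⟨v.1, ?_⟩
    have : v.2 = 0 := hv
    ext <;> simp [this]
  · ext v <;> simp
  · ext v <;> simp

/-- the Jordan block of size two -/
def jm (c : K) : Matrix (Unit ⊕ Unit) (Unit ⊕ Unit) K :=
  fromBlocks (c • 1) 1 0 (c • 1)

section
variable {κ : Type*} [Fintype κ] [DecidableEq κ]

/-- the two components of a vector -/
def c1 : ((Unit ⊕ Unit) × κ → K) →ₗ[K] (κ → K) :=
  { toFun := fun v k => v (Sum.inl (), k)
    map_add' := by intro v w; rfl
    map_smul' := by intro c v; rfl }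

def c2 : ((Unit ⊕ Unit) × κ → K) →ₗ[K] (κ → K) :=
  { toFun := fun v k => v (Sum.inr (), k)
    map_add' := by intro v w; rfl
    map_smul' := by intro c v; rfl }

theorem c1_S (c : K) (T : Matrix κ κ K) (v : (Unit ⊕ Unit) × κ → K) :
    c1 (Matrix.toLin' (jm c ⊗ₖ T) v) = c • Matrix.toLin' T (c1 v) + Matrix.toLin' T (c2 v) := by
  funext k
  simp [c1, c2, jm, Matrix.mulVec, dotProduct, Fintype.sum_prod_type, Matrix.kroneckerMap_apply,
    Finset.mul_sum, mul_assoc]

theorem c2_S (c : K) (T : Matrix κ κ K) (v : (Unit ⊕ Unit) × κ → K) :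
    c2 (Matrix.toLin' (jm c ⊗ₖ T) v) = c • Matrix.toLin' T (c2 v) := by
  funext k
  simp [c2, jm, Matrix.mulVec, dotProduct, Fintype.sum_prod_type, Matrix.kroneckerMap_apply,
    Finset.mul_sum, mul_assoc]

theorem c_pow (c : K) (T : Matrix κ κ K) (μ : K) (b : ℕ) (v : (Unit ⊕ Unit) × κ → K) :
    let x : Module.End K (κ → K) := c • Matrix.toLin' T - algebraMap K _ μ
    let S : Module.End K ((Unit ⊕ Unit) × κ → K) := Matrix.toLin' (jm c ⊗ₖ T) - algebraMap K _ μ
    c1 ((S ^ (b + 1)) v)
      = (x ^ (b + 1)) (c1 v) + ((b : K) + 1) • (x ^ b) (Matrix.toLin' T (c2 v)) ∧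
    c2 ((S ^ (b + 1)) v) = (x ^ (b + 1)) (c2 v) := by
  intro x S
  have hx : Commute x (Matrix.toLin' T) := by
    apply Commute.sub_left
    · exact (Commute.refl _).smul_left c
    · exact Algebra.commute_algebraMap_left _ _
  have h1 : ∀ w, c1 (S w) = x (c1 w) + Matrix.toLin' T (c2 w) := by
    intro w
    simp only [S, x, LinearMap.sub_apply, map_sub, c1_S, Module.algebraMap_end_apply, map_smul,
      LinearMap.smul_apply]
    abel
  have h2 : ∀ w, c2 (S w) = x (c2 w) := by
    intro w
    simp only [S, x, LinearMap.sub_apply, map_sub, c2_S, Module.algebraMap_end_apply, map_smul,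
      LinearMap.smul_apply]
  induction b generalizing v with
  | zero =>
    constructor
    · simp [h1]
    · simp [h2]
  | succ b ih =>
    obtain ⟨i1, i2⟩ := ih (S v)
    have e1 : (S ^ (b + 1 + 1)) v = (S ^ (b + 1)) (S v) := by
      rw [pow_succ]; rfl
    constructor
    · rw [e1, i1, h1, h2]
      have hc : ∀ k w, (x ^ k) (Matrix.toLin' T w) = Matrix.toLin' T ((x ^ k) w) := by
        intro k w
        have := LinearMap.congr_fun (hx.pow_left k).eq w
        simpa using this
      have e3 : (x ^ (b + 1 + 1)) (c1 v) = (x ^ (b + 1)) (x (c1 v)) := by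
        rw [pow_succ]; rfl
      have e4 : (x ^ b) (Matrix.toLin' T (x (c2 v))) = (x ^ (b + 1)) (Matrix.toLin' T (c2 v)) := by
        rw [hc, hc]
        have : (x ^ (b + 1)) (c2 v) = (x ^ b) (x (c2 v)) := by
          rw [pow_succ]; rfl
        rw [this]
      rw [map_add, e3, e4]
      push_cast
      rw [add_smul ((b : K) + 1) 1, one_smul]
      abel
    · rw [e1, i2, h2]
      have e3 : (x ^ (b + 1 + 1)) (c2 v) = (x ^ (b + 1)) (x (c2 v)) := by
        rw [pow_succ]; rfl
      rw [e3]

theorem num_jm [CharZero K] (c : K) (T : Matrix κ κ K) (hT : Function.Injective (Matrix.toLin' T))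
    (μ : K) (b : ℕ) :
    num (jm c ⊗ₖ T) μ (b + 1) ≤ num (c • T) μ b + num (c • T) μ (b + 2) := by
  unfold num nua
  set x : Module.End K (κ → K) := c • Matrix.toLin' T - algebraMap K _ μ with hxdef
  have hx0 : Matrix.toLin' (c • T) - algebraMap K (Module.End K (κ → K)) μ = x := by
    rw [map_smul]
  rw [hx0]
  set S : Module.End K ((Unit ⊕ Unit) × κ → K) := Matrix.toLin' (jm c ⊗ₖ T) - algebraMap K _ μ
    with hS
  have hx : Commute x (Matrix.toLin' T) := by
    apply Commute.sub_left
    · exact (Commute.refl _).smul_left c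
    · exact Algebra.commute_algebraMap_left _ _
  have hc : ∀ k w, (x ^ k) (Matrix.toLin' T w) = Matrix.toLin' T ((x ^ k) w) := by
    intro k w
    have := LinearMap.congr_fun (hx.pow_left k).eq w
    simpa using this
  refine le_trans ?_ (nu_prodMap (x ^ b) (x ^ (b + 2)))
  refine nu_le_of_inj
    (LinearMap.prod (x ∘ₗ c1 + ((b : K) + 1) • (Matrix.toLin' T ∘ₗ c2)) c1) ?_ _ _ ?_
  · intro v w h
    have h1 : c1 v = c1 w := by
      have := congrArg Prod.snd h
      simpa using this
    have h2 : x (c1 v) + ((b : K) + 1) • Matrix.toLin' T (c2 v)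
        = x (c1 w) + ((b : K) + 1) • Matrix.toLin' T (c2 w) := congrArg Prod.fst h
    rw [h1, add_right_inj] at h2
    have h3 : Matrix.toLin' T (c2 v) = Matrix.toLin' T (c2 w) :=
      smul_right_injective _ (Nat.cast_add_one_ne_zero b) h2
    have h4 := hT h3
    funext p
    obtain ⟨j, k⟩ := p
    rcases j with ⟨⟩ | ⟨⟩
    · exact congrFun h1 k
    · exact congrFun h4 k
  · intro v hv
    obtain ⟨i1, i2⟩ := c_pow c T μ b v
    rw [← hxdef, ← hS] at i1 i2
    rw [hv, map_zero] at i1 i2
    have e1 : (x ^ (b + 1)) (c1 v) = (x ^ b) (x (c1 v)) := by rw [pow_succ]; rfl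
    have e2 : (x ^ (b + 2)) (c1 v) = x ((x ^ (b + 1)) (c1 v)) := by
      rw [show b + 2 = (b + 1) + 1 from rfl, pow_succ']; rfl
    have e5 : (x ^ (b + 1)) (Matrix.toLin' T (c2 v)) = 0 := by
      rw [hc, ← i2, map_zero]
    have e6 : (x ^ (b + 1)) (Matrix.toLin' T (c2 v)) = x ((x ^ b) (Matrix.toLin' T (c2 v))) := by
      rw [pow_succ']; rfl
    ext1
    · change (x ^ b) (x (c1 v) + ((b : K) + 1) • Matrix.toLin' T (c2 v)) = 0
      rw [map_add, map_smul, ← e1]
      exact i1.symm
    · change (x ^ (b + 2)) (c1 v) = 0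
      rw [e2]
      have : (x ^ (b + 1)) (c1 v) = - (((b : K) + 1) • (x ^ b) (Matrix.toLin' T (c2 v))) := by
        rw [eq_neg_iff_add_eq_zero]; exact i1.symm
      rw [this, map_neg, map_smul, ← e6, e5, smul_zero, neg_zero]

theorem charpoly_jm (c : K) (T : Matrix κ κ K) :
    (jm c ⊗ₖ T).charpoly = (c • T).charpoly * (c • T).charpoly := by
  unfold jm
  rw [charpoly_fromBlocks, charpoly_unit]

end

end Pool.Agent.FS77
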