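import Pool.Agent.FS77.Defs

namespace Pool.Agent.FS77

open Matrix Module LinearMap

variable {K : Type*} [Field K]

/-- nullity -/
noncomputable def nu {V : Type*} [AddCommGroup V] [Module K V] (S : Module.End K V) : ℕ :=
  finrank K (ker S)

section
variable {V W V₁ V₂ : Type*} [AddCommGroup V] [Module K V] [AddCommGroup W] [Module K W]
  [AddCommGroup V₁] [Module K V₁] [AddCommGroup V₂] [Module K V₂]

theorem nu_le_of_inj [FiniteDimensional K V] [FiniteDimensional K W] (i : V →ₗ[K] W)
    (hi : Function.Injective i) (S : Module.End K V) (S' : Module.End K W)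
    (h : ∀ v, S v = 0 → S' (i v) = 0) : nu S ≤ nu S' := by
  unfold nu
  have h1 : (ker S).map i ≤ ker S' := by
    rintro w ⟨v, hv, rfl⟩
    exact h v hv
  calc finrank K (ker S) = finrank K ((ker S).map i) :=
        (LinearEquiv.finrank_eq (Submodule.equivMapOfInjective i hi _))
    _ ≤ finrank K (ker S') := Submodule.finrank_mono h1

theorem nu_le_of_exact [FiniteDimensional K W] [FiniteDimensional K V₁] [FiniteDimensional K V₂]
    (i : V₁ →ₗ[K] W) (π : W →ₗ[K] V₂) (hex : ker π ≤ range i) (hi : Function.Injective i)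
    (S : Module.End K W) (S₁ : Module.End K V₁) (S₂ : Module.End K V₂)
    (h1 : S ∘ₗ i = i ∘ₗ S₁) (h2 : π ∘ₗ S = S₂ ∘ₗ π) : nu S ≤ nu S₁ + nu S₂ := by
  unfold nu
  have e := LinearMap.finrank_range_add_finrank_ker (π.domRestrict (ker S))
  have hr : finrank K (range (π.domRestrict (ker S))) ≤ finrank K (ker S₂) := by
    apply Submodule.finrank_mono
    rintro _ ⟨⟨w, hw⟩, rfl⟩
    have : (S₂ ∘ₗ π) w = 0 := by
      rw [← h2]; simp only [LinearMap.comp_apply]; rw [LinearMap.mem_ker.mp hw, map_zero]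
    simpa using this
  have hk : finrank K (ker (π.domRestrict (ker S))) ≤ finrank K (ker S₁) := by
    have h3 : (ker (π.domRestrict (ker S))).map (ker S).subtype ≤ (ker S₁).map i := by
      rintro _ ⟨⟨w, hw⟩, hw2, rfl⟩
      have hw3 : π w = 0 := by simpa using hw2
      obtain ⟨v, rfl⟩ := hex hw3
      refine ⟨v, ?_, rfl⟩
      have : (i ∘ₗ S₁) v = 0 := by
        rw [← h1]; exact hw
      exact hi (by simpa using this)
    calc finrank K (ker (π.domRestrict (ker S)))
        = finrank K ((ker (π.domRestrict (ker S))).map (ker S).subtype) :=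
          (LinearEquiv.finrank_eq (Submodule.equivMapOfInjective _ (ker S).injective_subtype _))
      _ ≤ finrank K ((ker S₁).map i) := Submodule.finrank_mono h3
      _ = finrank K (ker S₁) :=
          (LinearEquiv.finrank_eq (Submodule.equivMapOfInjective i hi _)).symm
  omega

theorem pow_comp (i : V →ₗ[K] W) (S : Module.End K W) (S₁ : Module.End K V)
    (h : S ∘ₗ i = i ∘ₗ S₁) (a : ℕ) : (S ^ a) ∘ₗ i = i ∘ₗ (S₁ ^ a) := by
  induction a with
  | zero => ext v; simp
  | succ a ih =>
    ext v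
    have h' : ∀ v, S (i v) = i (S₁ v) := fun v => LinearMap.congr_fun h v
    have ih' : ∀ v, (S ^ a) (i v) = i ((S₁ ^ a) v) := fun v => LinearMap.congr_fun ih v
    simp only [LinearMap.comp_apply, pow_succ, Module.End.mul_apply]
    rw [h', ih']

theorem sub_comp' (i : V →ₗ[K] W) (S : Module.End K W) (S₁ : Module.End K V)
    (h : S ∘ₗ i = i ∘ₗ S₁) (μ : K) :
    (S - algebraMap K (Module.End K W) μ) ∘ₗ i = i ∘ₗ (S₁ - algebraMap K (Module.End K V) μ) := by
  ext v
  have h' : ∀ v, S (i v) = i (S₁ v) := fun v => LinearMap.congr_fun h v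
  simp [h']

/-- nullity of `(S - μ)^a` -/
noncomputable def nua {V : Type*} [AddCommGroup V] [Module K V] (S : Module.End K V) (μ : K)
    (a : ℕ) : ℕ := nu ((S - algebraMap K (Module.End K V) μ) ^ a)

theorem nua_le_of_exact [FiniteDimensional K W] [FiniteDimensional K V₁] [FiniteDimensional K V₂]
    (i : V₁ →ₗ[K] W) (π : W →ₗ[K] V₂) (hex : ker π ≤ range i) (hi : Function.Injective i)
    (S : Module.End K W) (S₁ : Module.End K V₁) (S₂ : Module.End K V₂)
    (h1 : S ∘ₗ i = i ∘ₗ S₁) (h2 : π ∘ₗ S = S₂ ∘ₗ π) (μ : K) (a : ℕ) :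
    nua S μ a ≤ nua S₁ μ a + nua S₂ μ a := by
  refine nu_le_of_exact i π hex hi _ _ _ ?_ ?_
  · exact pow_comp i _ _ (sub_comp' i S S₁ h1 μ) a
  · have := pow_comp π (S₂ - algebraMap K _ μ) (S - algebraMap K _ μ)
      (sub_comp' π S₂ S h2.symm μ) a
    exact this.symm

theorem nua_eq_of_equiv [FiniteDimensional K V] [FiniteDimensional K W] (e : V ≃ₗ[K] W)
    (S : Module.End K V) (S' : Module.End K W) (h : ∀ v, e (S v) = S' (e v)) (μ : K) (a : ℕ) :
    nua S μ a = nua S' μ a := by
  have h1 : S' ∘ₗ (e : V →ₗ[K] W) = (e : V →ₗ[K] W) ∘ₗ S := by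
    ext v; simp [h]
  have h2 : S ∘ₗ (e.symm : W →ₗ[K] V) = (e.symm : W →ₗ[K] V) ∘ₗ S' := by
    ext w
    simp only [LinearMap.comp_apply, LinearEquiv.coe_coe]
    apply e.injective
    rw [h]; simp
  apply le_antisymm
  · refine nu_le_of_inj (e : V →ₗ[K] W) e.injective _ _ fun v hv => ?_
    have := LinearMap.congr_fun (pow_comp _ _ _ (sub_comp' _ _ _ h1 μ) a) v
    simp only [LinearMap.comp_apply] at this
    rw [this, hv, map_zero]
  · refine nu_le_of_inj (e.symm : W →ₗ[K] V) e.symm.injective _ _ fun v hv => ?_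
    have := LinearMap.congr_fun (pow_comp _ _ _ (sub_comp' _ _ _ h2 μ) a) v
    simp only [LinearMap.comp_apply] at this
    rw [this, hv, map_zero]

theorem nua_zero [FiniteDimensional K V] (S : Module.End K V) (μ : K) : nua S μ 0 = 0 := by
  unfold nua nu
  rw [pow_zero]
  have : ker (1 : Module.End K V) = ⊥ := by
    ext v; simp
  rw [this]; simp

theorem nua_smul [FiniteDimensional K V] (S : Module.End K V) (c μ : K) (hc : c ≠ 0) (a : ℕ) :
    nua (c • S) μ a = nua S (μ / c) a := by
  unfold nua nu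
  have h : c • S - algebraMap K (Module.End K V) μ
      = c • (S - algebraMap K (Module.End K V) (μ / c)) := by
    ext v
    simp only [LinearMap.sub_apply, LinearMap.smul_apply, Module.algebraMap_end_apply, smul_sub]
    rw [smul_smul, mul_div_cancel₀ _ hc]
  rw [h, smul_pow, LinearMap.ker_smul _ _ (pow_ne_zero a hc)]

end

end Pool.Agent.FS77
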