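import Mathlib

/-!
Counting walks on the positive integers killed at zero.
-/

namespace Pool.Agent.FS77

open Finset

/-- the number of walks of length `k` with steps `±1` that start in `a` and stay positive -/
def kk : ℕ → ℕ → ℕ
  | 0, a => if a = 0 then 0 else 1
  | _ + 1, 0 => 0
  | k + 1, a + 1 => kk k a + kk k (a + 2)

/-- partial sums of binomial coefficients -/
def gg (k : ℕ) (y : ℤ) : ℕ :=
  ∑ i ∈ range (k + 1), if 2 * (i : ℤ) ≤ k + y then k.choose i else 0

theorem gg_succ (k : ℕ) (y : ℤ) : gg (k + 1) y = gg k (y - 1) + gg k (y + 1) := by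
  unfold gg
  have h1 : ∀ i : ℕ, (if 2 * ((i + 1 : ℕ) : ℤ) ≤ ((k + 1 : ℕ) : ℤ) + y
      then (k + 1).choose (i + 1) else 0)
      = (if 2 * (i : ℤ) ≤ k + (y - 1) then k.choose i else 0)
        + (if 2 * ((i + 1 : ℕ) : ℤ) ≤ k + (y + 1) then k.choose (i + 1) else 0) := by
    intro i
    have e1 : (2 * ((i + 1 : ℕ) : ℤ) ≤ ((k + 1 : ℕ) : ℤ) + y) ↔ 2 * (i : ℤ) ≤ k + (y - 1) := by
      push_cast; constructor <;> intro h <;> linarith
    have e2 : (2 * ((i + 1 : ℕ) : ℤ) ≤ k + (y + 1)) ↔ 2 * (i : ℤ) ≤ k + (y - 1) := by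
      push_cast; constructor <;> intro h <;> linarith
    simp only [e1, e2]
    split_ifs
    · rw [Nat.choose_succ_succ]
    · rfl
  rw [Finset.sum_range_succ', Finset.sum_congr rfl (fun i _ => h1 i), Finset.sum_add_distrib,
    add_assoc]
  congr 1
  rw [Finset.sum_range_succ' (fun i : ℕ => if 2 * (i : ℤ) ≤ k + (y + 1) then k.choose i else 0) k,
    Finset.sum_range_succ (fun i : ℕ =>
      if 2 * ((i + 1 : ℕ) : ℤ) ≤ k + (y + 1) then k.choose (i + 1) else 0) k]
  have e0 : (2 * ((0 : ℕ) : ℤ) ≤ ((k + 1 : ℕ) : ℤ) + y) ↔ (2 * ((0 : ℕ) : ℤ) ≤ k + (y + 1)) := by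
    push_cast; constructor <;> intro h <;> linarith
  simp only [e0, Nat.choose_succ_self, ite_self, add_zero, Nat.choose_zero_right]

theorem kk_eq (k : ℕ) : ∀ a : ℕ, kk k a + gg k (-a) = gg k a := by
  induction k with
  | zero =>
    intro a
    rcases a with _ | a
    · simp [kk]
    · have h : ¬ (0 : ℤ) ≤ -((a : ℤ) + 1) := by omega
      have h2 : (0 : ℤ) ≤ (a : ℤ) + 1 := by omega
      have g1 : gg 0 (-((a + 1 : ℕ) : ℤ)) = 0 := by
        unfold gg
        rw [Finset.sum_range_one, if_neg]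
        push_cast
        omega
      have g2 : gg 0 ((a + 1 : ℕ) : ℤ) = 1 := by
        unfold gg
        rw [Finset.sum_range_one, if_pos]
        · simp
        · push_cast
          omega
      rw [g1, g2]
      simp [kk]
  | succ k ih =>
    intro a
    rcases a with _ | a
    · simp [kk]
    · have i1 := ih a
      have i2 := ih (a + 2)
      rw [gg_succ, gg_succ]
      simp only [kk]
      push_cast at *
      have e1 : (-((a : ℤ) + 1) - 1) = -((a : ℤ) + 2) := by ring
      have e2 : (-((a : ℤ) + 1) + 1) = -(a : ℤ) := by ring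
      have e3 : ((a : ℤ) + 1 - 1) = a := by ring
      have e4 : ((a : ℤ) + 1 + 1) = a + 2 := by ring
      rw [e1, e2, e3, e4]
      omega

theorem gg_step (k : ℕ) (y : ℤ) :
    gg k (y + 1) ≤ gg k y + (if ((k : ℤ) + y + 1) % 2 = 0 then k.choose (k / 2) else 0) := by
  unfold gg
  have h2 : ∑ i ∈ range (k + 1), (if 2 * (i : ℤ) ≤ k + (y + 1) then k.choose i else 0)
      = ∑ i ∈ range (k + 1), (if 2 * (i : ℤ) ≤ k + y then k.choose i else 0)
        + ∑ i ∈ range (k + 1), (if 2 * (i : ℤ) = k + y + 1 then k.choose i else 0) := by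
    rw [← Finset.sum_add_distrib]
    refine Finset.sum_congr rfl fun i _ => ?_
    by_cases hi : 2 * (i : ℤ) = k + y + 1
    · rw [if_pos (by omega), if_neg (by omega), if_pos hi, zero_add]
    · rw [if_neg hi, add_zero]
      have : (2 * (i : ℤ) ≤ k + (y + 1)) ↔ (2 * (i : ℤ) ≤ k + y) := by omega
      simp only [this]
  rw [h2]
  apply Nat.add_le_add_left
  split_ifs with h
  · obtain ⟨z, hz⟩ : ∃ z : ℤ, (k : ℤ) + y + 1 = 2 * z := ⟨((k : ℤ) + y + 1) / 2, by omega⟩
    calc ∑ i ∈ range (k + 1), (if 2 * (i : ℤ) = k + y + 1 then k.choose i else 0)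
        = ∑ i ∈ range (k + 1), (if i = z.toNat then
            (if 2 * (i : ℤ) = k + y + 1 then k.choose i else 0) else 0) := by
          refine Finset.sum_congr rfl fun i _ => ?_
          by_cases hi : i = z.toNat
          · rw [if_pos hi]
          · rw [if_neg hi, if_neg]
            intro h'
            apply hi
            omega
      _ ≤ k.choose (k / 2) := by
          rw [Finset.sum_ite_eq']
          split_ifs
          · exact Nat.choose_le_middle _ _
          · exact Nat.zero_le _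
          · exact Nat.zero_le _
  · rw [Finset.sum_eq_zero]
    intro i _
    rw [if_neg]
    intro h'
    apply h
    omega

theorem kk_step (k a : ℕ) : kk k (a + 1) ≤ kk k a + k.choose (k / 2) := by
  have h1 := kk_eq k (a + 1)
  have h2 := kk_eq k a
  have h3 := gg_step k a
  have h4 := gg_step k (-((a : ℤ) + 1))
  have e : -((a : ℤ) + 1) + 1 = -(a : ℤ) := by ring
  rw [e] at h4
  push_cast at h1
  split_ifs at h3 h4 <;> omega

theorem kk_le (k a : ℕ) : kk k a ≤ a * k.choose (k / 2) := by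
  induction a with
  | zero => cases k <;> simp [kk]
  | succ a ih =>
    have := kk_step k a
    rw [Nat.succ_mul]
    omega

theorem kk_le_two (k : ℕ) : ∀ a, kk k a ≤ 2 ^ k := by
  induction k with
  | zero => intro a; simp only [kk]; split_ifs <;> simp
  | succ k ih =>
    intro a
    rcases a with _ | a
    · simp [kk]
    · simp only [kk]
      have h1 := ih a
      have h2 := ih (a + 2)
      rw [pow_succ]
      omega

theorem central_sq (m : ℕ) : (2 * m + 1) * (Nat.centralBinom m) ^ 2 ≤ 4 ^ (2 * m) := by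
  induction m with
  | zero => simp
  | succ m ih =>
    have h := Nat.succ_mul_centralBinom_succ m
    have h1 : (m + 1) ^ 2 * ((2 * (m + 1) + 1) * (Nat.centralBinom (m + 1)) ^ 2)
        ≤ (m + 1) ^ 2 * 4 ^ (2 * (m + 1)) := by
      calc (m + 1) ^ 2 * ((2 * (m + 1) + 1) * (Nat.centralBinom (m + 1)) ^ 2)
          = (2 * m + 3) * ((m + 1) * Nat.centralBinom (m + 1)) ^ 2 := by ring
        _ = (2 * m + 3) * (2 * (2 * m + 1) * Nat.centralBinom m) ^ 2 := by rw [h]
        _ = (4 * (2 * m + 3) * (2 * m + 1)) * ((2 * m + 1) * (Nat.centralBinom m) ^ 2) := by ring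
        _ ≤ (4 * (2 * m + 3) * (2 * m + 1)) * 4 ^ (2 * m) := Nat.mul_le_mul_left _ ih
        _ ≤ (16 * (m + 1) ^ 2) * 4 ^ (2 * m) := by
            apply Nat.mul_le_mul_right; nlinarith
        _ = (m + 1) ^ 2 * 4 ^ (2 * (m + 1)) := by ring
    exact Nat.le_of_mul_le_mul_left h1 (by positivity)

theorem middle_sq (k : ℕ) : (k + 1) * (k.choose (k / 2)) ^ 2 ≤ 4 ^ k := by
  rcases Nat.even_or_odd' k with ⟨m, rfl | rfl⟩
  · have := central_sq m
    rw [Nat.centralBinom] at this
    rwa [Nat.mul_div_cancel_left m (by norm_num : 0 < 2)]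
  · have h := central_sq (m + 1)
    have e : (2 * m + 1) / 2 = m := by omega
    rw [e]
    have h2 : Nat.centralBinom (m + 1) = 2 * (2 * m + 1).choose m := by
      rw [Nat.centralBinom, show 2 * (m + 1) = (2 * m + 1) + 1 by ring, Nat.choose_succ_succ]
      have : (2 * m + 1).choose (m + 1) = (2 * m + 1).choose m := by
        rw [← Nat.choose_symm_of_eq_add]; omega
      rw [this]; ring
    rw [h2] at h
    have h3 : 4 * ((2 * m + 3) * ((2 * m + 1).choose m) ^ 2) ≤ 4 * 4 ^ (2 * m + 1) := by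
      calc 4 * ((2 * m + 3) * ((2 * m + 1).choose m) ^ 2)
          = (2 * (m + 1) + 1) * (2 * (2 * m + 1).choose m) ^ 2 := by ring
        _ ≤ 4 ^ (2 * (m + 1)) := h
        _ = 4 * 4 ^ (2 * m + 1) := by ring
    have h4 := Nat.le_of_mul_le_mul_left h3 (by norm_num)
    refine le_trans (Nat.mul_le_mul_right _ ?_) h4
    omega

theorem kk_le_real (k a : ℕ) : (kk k a : ℝ) ≤ a * (2 ^ k / Real.sqrt (k + 1)) := by
  have h1 : (kk k a : ℝ) ≤ a * (k.choose (k / 2) : ℝ) := by exact_mod_cast kk_le k a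
  refine h1.trans (mul_le_mul_of_nonneg_left ?_ (Nat.cast_nonneg _))
  have hk : (0 : ℝ) < k + 1 := by positivity
  rw [le_div_iff₀ (Real.sqrt_pos.mpr hk)]
  refine (pow_le_pow_iff_left₀ (by positivity) (by positivity) (two_ne_zero)).mp ?_
  rw [mul_pow, Real.sq_sqrt hk.le]
  have := middle_sq k
  have h2 : ((k : ℝ) + 1) * (k.choose (k / 2) : ℝ) ^ 2 ≤ 4 ^ k := by exact_mod_cast this
  calc (k.choose (k / 2) : ℝ) ^ 2 * (k + 1) = ((k : ℝ) + 1) * (k.choose (k / 2) : ℝ) ^ 2 := by ring
    _ ≤ 4 ^ k := h2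
    _ = (2 ^ k) ^ 2 := by rw [← pow_mul, mul_comm, pow_mul]; norm_num

theorem kk_bound (L k a : ℕ) : (kk k a : ℝ) ≤ 2 ^ L + a * (2 ^ k / Real.sqrt (L + 1)) := by
  rcases Nat.lt_or_ge k L with h | h
  · have h1 : (kk k a : ℝ) ≤ 2 ^ k := by exact_mod_cast kk_le_two k a
    have h2 : (2 : ℝ) ^ k ≤ 2 ^ L := pow_le_pow_right₀ (by norm_num) h.le
    have h3 : (0 : ℝ) ≤ a * (2 ^ k / Real.sqrt (L + 1)) := by positivity
    linarith
  · have h1 := kk_le_real k a
    have h2 : (2 : ℝ) ^ k / Real.sqrt (k + 1) ≤ 2 ^ k / Real.sqrt (L + 1) := by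
      apply div_le_div_of_nonneg_left (by positivity)
      · apply Real.sqrt_pos.mpr; positivity
      · apply Real.sqrt_le_sqrt
        have : (L : ℝ) ≤ k := by exact_mod_cast h
        linarith
    have h4 := mul_le_mul_of_nonneg_left h2 (Nat.cast_nonneg a : (0 : ℝ) ≤ a)
    have h3 : (0 : ℝ) ≤ 2 ^ L := by positivity
    linarith

end Pool.Agent.FS77
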