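import Pool.Agent.FS77.Tri
import Pool.Agent.FS77.Walk

/-!
Recurrences for the multiplicities of the Kronecker powers.
-/

namespace Pool.Agent.FS77

open Matrix Module Kronecker

section
variable {K : Type*} [Field K]

theorem kpow_succ {b : ℕ} (A : Matrix (Fin b) (Fin b) K) (N : ℕ) :
    kpow A (N + 1) = reindex (Fin.consEquiv (fun _ => Fin b)) (Fin.consEquiv (fun _ => Fin b))
      (A ⊗ₖ kpow A N) := by
  ext f g
  simp [kpow, Fin.prod_univ_succ, Matrix.kroneckerMap_apply, Fin.tail]

theorem kpow_add {b : ℕ} (A : Matrix (Fin b) (Fin b) K) (m n : ℕ) :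
    kpow A (m + n) = reindex (Fin.appendEquiv m n) (Fin.appendEquiv m n)
      (kpow A m ⊗ₖ kpow A n) := by
  ext f g
  simp [kpow, Fin.prod_univ_add, Matrix.kroneckerMap_apply, Fin.appendEquiv]

theorem kpow_mul {b : ℕ} (A B : Matrix (Fin b) (Fin b) K) (N : ℕ) :
    kpow (A * B) N = kpow A N * kpow B N := by
  ext f g
  simp only [kpow, Matrix.of_apply, Matrix.mul_apply, Finset.prod_univ_sum,
    Fintype.piFinset_univ, Finset.prod_mul_distrib]

theorem kpow_one {b : ℕ} (N : ℕ) : kpow (1 : Matrix (Fin b) (Fin b) K) N = 1 := by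
  ext f g
  simp only [kpow, Matrix.of_apply, Matrix.one_apply]
  by_cases h : f = g
  · subst h; simp
  · rw [if_neg h]
    obtain ⟨i, hi⟩ := Function.ne_iff.mp h
    exact Finset.prod_eq_zero (Finset.mem_univ i) (if_neg hi)

theorem kpow_smul {b : ℕ} (c : K) (A : Matrix (Fin b) (Fin b) K) (N : ℕ) :
    kpow (c • A) N = c ^ N • kpow A N := by
  ext f g
  simp [kpow, Finset.prod_mul_distrib]

theorem kpow_transpose {b : ℕ} (A : Matrix (Fin b) (Fin b) K) (N : ℕ) :
    kpow Aᵀ N = (kpow A N)ᵀ := by
  ext f g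
  simp [kpow]

theorem kpow_det {b : ℕ} (A : Matrix (Fin b) (Fin b) K) (hA : A.det ≠ 0) (N : ℕ) :
    (kpow A N).det ≠ 0 := by
  have h1 : A * A⁻¹ = 1 := Matrix.mul_nonsing_inv A (isUnit_iff_ne_zero.mpr hA)
  have h2 : kpow A N * kpow A⁻¹ N = 1 := by rw [← kpow_mul, h1, kpow_one]
  have h3 := congrArg Matrix.det h2
  rw [Matrix.det_mul, Matrix.det_one] at h3
  intro h
  rw [h, zero_mul] at h3
  exact zero_ne_one h3

theorem inj_of_det {κ : Type*} [Fintype κ] [DecidableEq κ] (T : Matrix κ κ K) (hT : T.det ≠ 0) :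
    Function.Injective (Matrix.toLin' T) := by
  intro v w h
  rw [Matrix.toLin'_apply, Matrix.toLin'_apply] at h
  exact Matrix.mulVec_injective_iff_isUnit.mpr
    ((Matrix.isUnit_iff_isUnit_det T).mpr (isUnit_iff_ne_zero.mpr hT)) h

theorem alg_eq {κ : Type*} [Fintype κ] [DecidableEq κ] (T : Matrix κ κ K) (μ : K) :
    alg T μ = num T μ (Fintype.card κ) := by
  unfold alg num nua nu
  rw [← Matrix.charpoly_toLin', ← LinearMap.finrank_maxGenEigenspace_eq,
    Module.End.maxGenEigenspace_eq_genEigenspace_finrank, Module.End.genEigenspace_nat,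
    Algebra.algebraMap_eq_smul_one, Module.finrank_fintype_fun_eq_card]

theorem num_smul {κ : Type*} [Fintype κ] [DecidableEq κ] (T : Matrix κ κ K) (c μ : K) (hc : c ≠ 0)
    (a : ℕ) : num (c • T) μ a = num T (μ / c) a := by
  unfold num
  rw [map_smul]
  exact nua_smul _ c μ hc a

theorem alg_smul {κ : Type*} [Fintype κ] [DecidableEq κ] (T : Matrix κ κ K) (c μ : K)
    (hc : c ≠ 0) : alg (c • T) μ = alg T (μ / c) := by
  rw [alg_eq, alg_eq, num_smul T c μ hc]

theorem rootMult_prod {κ : Type*} [Fintype κ] [DecidableEq κ] (T : Matrix κ κ K) (μ : K)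
    (Λ : Multiset K) : (Λ.map fun c => (c • T).charpoly).prod.rootMultiplicity μ
      = (Λ.map fun c => alg (c • T) μ).sum := by
  induction Λ using Multiset.induction_on with
  | empty => simp
  | cons a s ih =>
    rw [Multiset.map_cons, Multiset.prod_cons, Multiset.map_cons, Multiset.sum_cons,
      Polynomial.rootMultiplicity_mul, ih]
    · rfl
    · apply mul_ne_zero (Matrix.charpoly_monic _).ne_zero
      apply Multiset.prod_ne_zero
      intro h
      rw [Multiset.mem_map] at h
      obtain ⟨c, _, hc⟩ := h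
      exact (Matrix.charpoly_monic _).ne_zero hc

theorem num_zero {κ : Type*} [Fintype κ] [DecidableEq κ] (T : Matrix κ κ K) (μ : K) :
    num T μ 0 = 0 := nua_zero _ _

/-- the nonzero-value facts for an empty product -/
theorem kpow_zero {b : ℕ} (A : Matrix (Fin b) (Fin b) K) : kpow A 0 = 1 := by
  ext f g
  have : f = g := Subsingleton.elim _ _
  subst this
  simp [kpow]

open Classical in
theorem num_base {b : ℕ} (A : Matrix (Fin b) (Fin b) K) (μ : K) (a : ℕ) :
    num (kpow A 0) μ a ≤ if μ = 1 then kk 0 a else 0 := by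
  have hd : finrank K ((Fin 0 → Fin b) → K) = 1 := by
    rw [Module.finrank_fintype_fun_eq_card]; simp
  rcases a with _ | a
  · rw [num_zero]; exact Nat.zero_le _
  · split_ifs with h
    · simp only [kk, Nat.succ_ne_zero, if_false]
      unfold num nua nu
      refine (Submodule.finrank_le _).trans hd.le
    · unfold num nua nu
      rw [kpow_zero, Matrix.toLin'_one]
      have h1 : (LinearMap.id : Module.End K ((Fin 0 → Fin b) → K))
          - algebraMap K (Module.End K ((Fin 0 → Fin b) → K)) μ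
          = algebraMap K (Module.End K ((Fin 0 → Fin b) → K)) (1 - μ) := by
        rw [map_sub, map_one]; rfl
      rw [h1, ← map_pow]
      have h2 : LinearMap.ker (algebraMap K (Module.End K ((Fin 0 → Fin b) → K))
          ((1 - μ) ^ (a + 1))) = ⊥ := by
        ext v
        have h3 : (1 - μ) ^ (a + 1) ≠ 0 := pow_ne_zero _ (sub_ne_zero.mpr (Ne.symm h))
        rw [LinearMap.mem_ker, Module.algebraMap_end_apply, smul_eq_zero, Submodule.mem_bot]
        exact ⟨fun h => h.resolve_left h3, fun h => Or.inr h⟩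
      rw [h2]
      simp

open Classical in
theorem alg_base {b : ℕ} (A : Matrix (Fin b) (Fin b) K) (μ : K) :
    alg (kpow A 0) μ = if μ = 1 then 1 else 0 := by
  unfold alg
  rw [kpow_zero, Matrix.charpoly_one]
  have : (Fintype.card (Fin 0 → Fin b)) = 1 := by simp
  rw [this, pow_one]
  have e : (Polynomial.X - 1 : Polynomial K) = Polynomial.X - Polynomial.C 1 := by simp
  rw [e, Polynomial.rootMultiplicity_X_sub_C]

end

section jordan
universe u
variable {K : Type u} [Field K] [IsAlgClosed K] [CharZero K]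

theorem rec_jordan {b : ℕ} (A : Matrix (Fin b) (Fin b) K) (hA : A.det ≠ 0)
    (hs : ¬ Module.End.IsSemisimple (Matrix.toLin' A)) :
    ∃ (c : K) (Λ : Multiset K), Multiset.card Λ + 2 = b ∧
      (∀ N μ a, num (kpow A (N + 1)) μ (a + 1) ≤ num (kpow A N) (μ / c) a
        + num (kpow A N) (μ / c) (a + 2)
        + (Λ.map fun l => num (kpow A N) (μ / l) (a + 1)).sum) ∧
      (∀ N μ, alg (kpow A (N + 1)) μ = 2 * alg (kpow A N) (μ / c)
        + (Λ.map fun l => alg (kpow A N) (μ / l)).sum) := by
  obtain ⟨c, Λ, hcard, hT⟩ := exists_tri_jordan (Matrix.toLin' A) hs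
  rw [Module.finrank_fintype_fun_eq_card, Fintype.card_fin] at hcard
  -- nonvanishing of the eigenvalues
  have hnz : c ≠ 0 ∧ ∀ l ∈ Λ, l ≠ 0 := by
    have h := (hT Unit (1 : Matrix Unit Unit K) (by
      rw [Matrix.toLin'_one]; exact Function.injective_id)).2
    rw [← charpoly_kron_basis (Pi.basisFun K (Fin b)), toMatrix_toLin'] at h
    have h0 := congrArg (Polynomial.eval 0) h
    rw [Matrix.eval_charpoly, Polynomial.eval_mul, Polynomial.eval_mul,
      Polynomial.eval_multiset_prod] at h0
    have hne : (Matrix.scalar (Fin b × Unit) (0 : K) - A ⊗ₖ (1 : Matrix Unit Unit K)).det ≠ 0 := by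
      rw [map_zero, zero_sub, Matrix.det_neg, Matrix.det_kronecker]
      simp [hA]
    rw [h0] at hne
    constructor
    · rintro rfl
      apply hne
      rw [Matrix.eval_charpoly]
      simp
    · rintro l hl rfl
      apply hne
      have : (0 : K) ∈ ((Λ.map fun c => (c • (1 : Matrix Unit Unit K)).charpoly).map
          (Polynomial.eval 0)) := by
        rw [Multiset.map_map, Multiset.mem_map]
        refine ⟨0, hl, ?_⟩
        simp
      rw [Multiset.prod_eq_zero this, mul_zero]
  refine ⟨c, Λ, hcard, ?_, ?_⟩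
  · intro N μ a
    have h := (hT _ (kpow A N) (inj_of_det _ (kpow_det A hA N))).1 μ a
    rw [← num_kron_basis (Pi.basisFun K (Fin b)), toMatrix_toLin'] at h
    rw [kpow_succ, num_reindex]
    refine h.trans (le_of_eq ?_)
    rw [num_smul _ c μ hnz.1, num_smul _ c μ hnz.1]
    congr 2
    apply Multiset.map_congr rfl
    intro l hl
    rw [num_smul _ l μ (hnz.2 l hl)]
  · intro N μ
    have h := (hT _ (kpow A N) (inj_of_det _ (kpow_det A hA N))).2
    rw [← charpoly_kron_basis (Pi.basisFun K (Fin b)), toMatrix_toLin'] at h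
    unfold alg
    rw [kpow_succ, Matrix.charpoly_reindex, h]
    have hp : (Λ.map fun c => (c • kpow A N).charpoly).prod ≠ 0 := by
      apply Multiset.prod_ne_zero
      intro h
      rw [Multiset.mem_map] at h
      obtain ⟨c, _, hc⟩ := h
      exact (Matrix.charpoly_monic _).ne_zero hc
    have hq : (c • kpow A N).charpoly ≠ 0 := (Matrix.charpoly_monic _).ne_zero
    rw [Polynomial.rootMultiplicity_mul (mul_ne_zero (mul_ne_zero hq hq) hp),
      Polynomial.rootMultiplicity_mul (mul_ne_zero hq hq), rootMult_prod]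
    have e1 : (c • kpow A N).charpoly.rootMultiplicity μ = alg (kpow A N) (μ / c) :=
      alg_smul _ c μ hnz.1
    rw [e1, ← two_mul]
    congr 2
    apply Multiset.map_congr rfl
    intro l hl
    rw [alg_smul _ l μ (hnz.2 l hl)]
    rfl

end jordan

section count
universe u
variable {K : Type u} [Field K] [IsAlgClosed K]

omit [IsAlgClosed K] in
theorem toMatrix_toLin'' {κ : Type*} [Fintype κ] [DecidableEq κ] (Z : Matrix κ κ K) :
    LinearMap.toMatrix (Pi.basisFun K κ) (Pi.basisFun K κ) (Matrix.toLin' Z) = Z := by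
  rw [LinearMap.toMatrix_eq_toMatrix', LinearMap.toMatrix'_toLin']

/-- the algebraic multiplicities of a Kronecker product are convolutions -/
theorem alg_kron {ι κ : Type} [Fintype ι] [DecidableEq ι] [Fintype κ] [DecidableEq κ]
    (B : Matrix ι ι K) (hB : B.det ≠ 0) (T : Matrix κ κ K) (μ : K) :
    alg (B ⊗ₖ T) μ = (B.charpoly.roots.map fun l => alg T (μ / l)).sum := by
  obtain ⟨Λ, hcard, hT⟩ := exists_tri _ _ (Matrix.toLin' B) rfl
  have hroots : B.charpoly.roots = Λ := by
    have h := (hT Unit (1 : Matrix Unit Unit K)).2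
    rw [← charpoly_kron_basis (Pi.basisFun K ι), toMatrix_toLin''] at h
    have h1 : (B ⊗ₖ (1 : Matrix Unit Unit K)).charpoly = B.charpoly := by
      have e : B ⊗ₖ (1 : Matrix Unit Unit K)
          = reindex (Equiv.prodPUnit ι).symm (Equiv.prodPUnit ι).symm B := by
        ext ⟨i, _⟩ ⟨j, _⟩
        simp [Matrix.kroneckerMap_apply]
      rw [e, Matrix.charpoly_reindex]
    have h2 : ∀ c : K, (c • (1 : Matrix Unit Unit K)).charpoly
        = Polynomial.X - Polynomial.C c := by
      intro c
      rw [Matrix.charpoly, Matrix.det_unique]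
      simp
    rw [h1] at h
    simp only [h2] at h
    rw [h, Polynomial.roots_multiset_prod_X_sub_C]
  have hnz : ∀ l ∈ Λ, l ≠ 0 := by
    rintro l hl rfl
    rw [← hroots, Polynomial.mem_roots (Matrix.charpoly_monic _).ne_zero,
      Polynomial.IsRoot.def, Matrix.eval_charpoly, map_zero, zero_sub, Matrix.det_neg] at hl
    exact hB (by simpa using hl)
  have h := (hT _ T).2
  rw [← charpoly_kron_basis (Pi.basisFun K ι), toMatrix_toLin''] at h
  rw [hroots]
  unfold alg
  rw [h, rootMult_prod]
  congr 1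
  apply Multiset.map_congr rfl
  intro l hl
  rw [alg_smul _ l μ (hnz l hl)]
  rfl

theorem alg_kpow_succ {b : ℕ} (A : Matrix (Fin b) (Fin b) K) (hA : A.det ≠ 0) (N : ℕ) (μ : K) :
    alg (kpow A (N + 1)) μ = (A.charpoly.roots.map fun l => alg (kpow A N) (μ / l)).sum := by
  rw [← alg_kron A hA (kpow A N) μ]
  unfold alg
  rw [kpow_succ, Matrix.charpoly_reindex]

theorem alg_kpow_two {b : ℕ} (A : Matrix (Fin b) (Fin b) K) (hA : A.det ≠ 0) (n : ℕ) (μ : K) :
    alg (kpow A (2 * n)) μ
      = ((kpow A n).charpoly.roots.map fun l => alg (kpow A n) (μ / l)).sum := by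
  rw [← alg_kron _ (kpow_det A hA n) (kpow A n) μ]
  unfold alg
  rw [two_mul, kpow_add, Matrix.charpoly_reindex]

end count

end Pool.Agent.FS77
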