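import Pool.Agent.FS77.JBlock

namespace Pool.Agent.FS77

open Matrix Module LinearMap Polynomial
open scoped Kronecker

universe u

variable {K : Type u} [Field K]

section basis
variable {V : Type*} [AddCommGroup V] [Module K V] [FiniteDimensional K V]
variable {ι κ : Type*} [Fintype ι] [DecidableEq ι] [Fintype κ] [DecidableEq κ]

theorem num_toMatrix (b : Basis ι K V) (f : Module.End K V) (μ : K) (a : ℕ) :
    num (toMatrix b b f) μ a = nua f μ a := by
  unfold num
  refine (nua_eq_of_equiv b.equivFun _ _ ?_ μ a).symm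
  intro v
  rw [Matrix.toLin'_apply]
  exact (toMatrix_mulVec_repr b b f v).symm

theorem num_kron_basis (b : Basis ι K V) (f : Module.End K V) (T : Matrix κ κ K) (μ : K) (a : ℕ) :
    num ((toMatrix b b f) ⊗ₖ T) μ a = nua (TensorProduct.map f (Matrix.toLin' T)) μ a := by
  rw [← num_toMatrix (b.tensorProduct (Pi.basisFun K κ)) (TensorProduct.map f (Matrix.toLin' T)),
    TensorProduct.toMatrix_map]
  congr 2
  rw [LinearMap.toMatrix_eq_toMatrix', LinearMap.toMatrix'_toLin']

theorem charpoly_kron_basis (b : Basis ι K V) (f : Module.End K V) (T : Matrix κ κ K) :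
    ((toMatrix b b f) ⊗ₖ T).charpoly
      = (TensorProduct.map f (Matrix.toLin' T) : Module.End K _).charpoly := by
  rw [← LinearMap.charpoly_toMatrix (TensorProduct.map f (Matrix.toLin' T))
    (b.tensorProduct (Pi.basisFun K κ)), TensorProduct.toMatrix_map]
  congr 2
  rw [LinearMap.toMatrix_eq_toMatrix', LinearMap.toMatrix'_toLin']

omit [DecidableEq ι] in
/-- extension of an independent family to a basis -/
theorem exists_basis_extend (v : ι → V) (hv : LinearIndependent K v) :
    ∃ (m : ℕ) (b : Basis (ι ⊕ Fin m) K V), Fintype.card ι + m = finrank K V ∧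
      ∀ i, b (Sum.inl i) = v i := by
  obtain ⟨W, hW⟩ := Submodule.exists_isCompl (Submodule.span K (Set.range v))
  let b := ((Basis.span hv).prod (finBasis K W)).map (Submodule.prodEquivOfIsCompl _ W hW)
  refine ⟨_, b, ?_, ?_⟩
  · rw [Module.finrank_eq_card_basis b]; simp
  · intro i
    simp [b, Basis.span_apply]

end basis

/-- The eigenvalues `Λ` (with multiplicity) of `f` control the tensor products with `f`. -/
def Tri {V : Type*} [AddCommGroup V] [Module K V] [FiniteDimensional K V] (f : Module.End K V)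
    (Λ : Multiset K) : Prop :=
  ∀ (κ : Type) [Fintype κ] [DecidableEq κ] (T : Matrix κ κ K),
    (∀ μ a, nua (TensorProduct.map f (Matrix.toLin' T)) μ a
      ≤ (Λ.map fun c => num (c • T) μ a).sum) ∧
    (TensorProduct.map f (Matrix.toLin' T) : Module.End K _).charpoly
      = (Λ.map fun c => (c • T).charpoly).prod

/-- a block triangular form of `f` passes the property `Tri` on -/
theorem toMatrix_toLin' {m : ℕ} (Z : Matrix (Fin m) (Fin m) K) :
    toMatrix (Pi.basisFun K (Fin m)) (Pi.basisFun K (Fin m)) (Matrix.toLin' Z) = Z := by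
  rw [LinearMap.toMatrix_eq_toMatrix', LinearMap.toMatrix'_toLin']

theorem exists_tri [IsAlgClosed K] (n : ℕ) : ∀ (V : Type u) [AddCommGroup V] [Module K V]
    [FiniteDimensional K V] (f : Module.End K V), finrank K V = n →
    ∃ Λ : Multiset K, Multiset.card Λ = n ∧ Tri f Λ := by
  induction n with
  | zero =>
    intro V _ _ _ f hV
    refine ⟨0, by simp, ?_⟩
    intro κ _ _ T
    have hs : Subsingleton V := finrank_zero_iff.mp hV
    have hs2 : Subsingleton (TensorProduct K V (κ → K)) := inferInstance
    constructor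
    · intro μ a
      simp only [Multiset.map_zero, Multiset.sum_zero, Nat.le_zero]
      unfold nua nu
      apply finrank_zero_of_subsingleton
    · simp only [Multiset.map_zero, Multiset.prod_zero]
      have h0 : finrank K (TensorProduct K V (κ → K)) = 0 := finrank_zero_of_subsingleton
      have h1 := LinearMap.charpoly_natDegree
        (TensorProduct.map f (Matrix.toLin' T) : Module.End K _)
      rw [h0] at h1
      exact (Monic.natDegree_eq_zero (LinearMap.charpoly_monic _)).mp h1
  | succ n ih =>
    intro V _ _ _ f hV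
    have hnt : Nontrivial V := by
      apply nontrivial_of_finrank_pos (R := K); omega
    obtain ⟨c, hc⟩ := Module.End.exists_eigenvalue f
    obtain ⟨v, hv⟩ := hc.exists_hasEigenvector
    obtain ⟨m, b, hm, hb⟩ := exists_basis_extend (K := K) (fun _ : Unit => v)
      (by rw [linearIndependent_unique_iff]; exact hv.2)
    have hmn : m = n := by
      simp only [Fintype.card_unit] at hm; omega
    subst hmn
    set A := toMatrix b b f with hA
    have hfv : f v = c • v := hv.apply_eq_smul
    have h11 : A.toBlocks₁₁ = c • 1 := by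
      ext ⟨⟩ ⟨⟩
      rw [Matrix.toBlocks₁₁, Matrix.of_apply, hA, toMatrix_apply, hb, hfv, map_smul, ← hb ()]
      simp
    have h21 : A.toBlocks₂₁ = 0 := by
      ext i ⟨⟩
      rw [Matrix.toBlocks₂₁, Matrix.of_apply, hA, toMatrix_apply, hb, hfv, map_smul, ← hb ()]
      simp
    have hAb : A = fromBlocks (c • 1) A.toBlocks₁₂ 0 A.toBlocks₂₂ := by
      rw [← h11, ← h21, Matrix.fromBlocks_toBlocks]
    obtain ⟨Λ, hΛ, hT⟩ := ih (Fin m → K) (Matrix.toLin' A.toBlocks₂₂) (by simp)
    refine ⟨c ::ₘ Λ, by simp [hΛ], ?_⟩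
    intro κ _ _ T
    obtain ⟨h1, h2⟩ := hT κ T
    constructor
    · intro μ a
      rw [← num_kron_basis b f T, ← hA, hAb, Multiset.map_cons, Multiset.sum_cons]
      refine (num_fromBlocks _ _ _ T μ a).trans ?_
      rw [num_unit]
      refine Nat.add_le_add_left ?_ _
      have := h1 μ a
      rwa [← num_kron_basis (Pi.basisFun K (Fin m)), toMatrix_toLin'] at this
    · rw [← charpoly_kron_basis b f T, ← hA, hAb, Multiset.map_cons, Multiset.prod_cons,
        charpoly_fromBlocks, charpoly_unit, ← h2,
        ← charpoly_kron_basis (Pi.basisFun K (Fin m)), toMatrix_toLin']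

/-- a non-semisimple endomorphism has a Jordan block of size at least two -/
theorem exists_jordan [IsAlgClosed K] {V : Type*} [AddCommGroup V] [Module K V]
    [FiniteDimensional K V] (f : Module.End K V) (hf : ¬ f.IsSemisimple) :
    ∃ (c : K) (x : V), f x - c • x ≠ 0 ∧ f (f x - c • x) = c • (f x - c • x) := by
  have hsq : ¬ Squarefree (minpoly K f) := fun h =>
    hf (Module.End.isSemisimple_of_squarefree_aeval_eq_zero h (minpoly.aeval K f))
  have h0 : minpoly K f ≠ 0 := minpoly.ne_zero (Algebra.IsIntegral.isIntegral f)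
  rw [squarefree_iff_irreducible_sq_not_dvd_of_ne_zero h0] at hsq
  push Not at hsq
  obtain ⟨q, hq, hd⟩ := hsq
  obtain ⟨c, hc⟩ := IsAlgClosed.exists_root q (IsAlgClosed.degree_eq_one_of_irreducible K hq ▸
    one_ne_zero)
  have hcq : (X - C c) ∣ q := dvd_iff_isRoot.mpr hc
  obtain ⟨g, hg⟩ := (mul_dvd_mul hcq hcq).trans hd
  have hne : aeval f ((X - C c) * g) ≠ 0 := by
    intro h
    have h1 := minpoly.dvd K f h
    have hg0 : (X - C c) * g ≠ 0 := by
      intro h2
      apply h0
      rw [hg, mul_assoc, h2, mul_zero]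
    have h3 := natDegree_le_of_dvd h1 hg0
    rw [hg, mul_assoc, natDegree_mul (X_sub_C_ne_zero c) hg0, natDegree_X_sub_C] at h3
    omega
  have : ∃ w, (aeval f ((X - C c) * g)) w ≠ 0 := by
    by_contra hcon
    push Not at hcon
    exact hne (LinearMap.ext hcon)
  obtain ⟨w, hw⟩ := this
  refine ⟨c, aeval f g w, ?_, ?_⟩
  · rw [map_mul] at hw
    simpa using hw
  · have h1 : aeval f ((X - C c) * (X - C c) * g) w = 0 := by
      rw [← hg, minpoly.aeval]; rfl
    rw [map_mul, map_mul] at h1
    simp only [map_sub, aeval_X, aeval_C, Module.End.mul_apply, LinearMap.sub_apply,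
      Module.algebraMap_end_apply] at h1
    rw [← sub_eq_zero, ← h1, map_sub, smul_sub]
    abel

/-- the refined property for a non-semisimple endomorphism -/
theorem exists_tri_jordan [IsAlgClosed K] [CharZero K] {V : Type u} [AddCommGroup V] [Module K V]
    [FiniteDimensional K V] (f : Module.End K V) (hf : ¬ f.IsSemisimple) :
    ∃ (c : K) (Λ : Multiset K), Multiset.card Λ + 2 = finrank K V ∧
      ∀ (κ : Type) [Fintype κ] [DecidableEq κ] (T : Matrix κ κ K),
        Function.Injective (Matrix.toLin' T) →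
        (∀ μ a, nua (TensorProduct.map f (Matrix.toLin' T)) μ (a + 1)
          ≤ num (c • T) μ a + num (c • T) μ (a + 2)
            + (Λ.map fun c => num (c • T) μ (a + 1)).sum) ∧
        (TensorProduct.map f (Matrix.toLin' T) : Module.End K _).charpoly
          = (c • T).charpoly * (c • T).charpoly * (Λ.map fun c => (c • T).charpoly).prod := by
  obtain ⟨c, x, hx, hfx⟩ := exists_jordan f hf
  set y := f x - c • x with hy
  have hfxy : f x = c • x + y := by rw [hy]; abel
  have hli : LinearIndependent K (Sum.elim (fun _ : Unit => y) (fun _ : Unit => x)) := by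
    rw [Fintype.linearIndependent_iff]
    intro g hg
    simp only [Fintype.sum_sum_type, Sum.elim_inl, Sum.elim_inr, Finset.univ_unique,
      PUnit.default_eq_unit, Finset.sum_singleton] at hg
    have h1 := congrArg f hg
    simp only [map_add, map_smul, map_zero, hfx, hfxy] at h1
    have h2 : g (Sum.inr ()) • y = 0 := by
      have h3 : g (Sum.inl ()) • c • y + g (Sum.inr ()) • (c • x + y)
          - c • (g (Sum.inl ()) • y + g (Sum.inr ()) • x) = 0 := by
        rw [h1, hg]; simp
      rw [← h3]
      simp only [smul_add, smul_comm c]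
      abel
    have h3 : g (Sum.inr ()) = 0 := (smul_eq_zero.mp h2).resolve_right hx
    have h4 : g (Sum.inl ()) = 0 := by
      rw [h3] at hg
      simp only [zero_smul, add_zero] at hg
      exact (smul_eq_zero.mp hg).resolve_right hx
    rintro (⟨⟩ | ⟨⟩)
    · exact h4
    · exact h3
  obtain ⟨m, b, hm, hb⟩ := exists_basis_extend (K := K) _ hli
  have hb1 : b (Sum.inl (Sum.inl ())) = y := by rw [hb]; rfl
  have hb2 : b (Sum.inl (Sum.inr ())) = x := by rw [hb]; rfl
  set A := toMatrix b b f with hA
  have h11 : A.toBlocks₁₁ = jm c := by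
    ext i j
    rw [Matrix.toBlocks₁₁, Matrix.of_apply, hA, toMatrix_apply]
    rcases j with ⟨⟩ | ⟨⟩
    · rw [hb1, hfx, map_smul, ← hb1]
      rcases i with ⟨⟩ | ⟨⟩ <;> simp [jm]
    · rw [hb2, hfxy, map_add, map_smul, ← hb1, ← hb2]
      rcases i with ⟨⟩ | ⟨⟩ <;> simp [jm]
  have h21 : A.toBlocks₂₁ = 0 := by
    ext i j
    rw [Matrix.toBlocks₂₁, Matrix.of_apply, hA, toMatrix_apply]
    rcases j with ⟨⟩ | ⟨⟩
    · rw [hb1, hfx, map_smul, ← hb1]; simp
    · rw [hb2, hfxy, map_add, map_smul, ← hb1, ← hb2]; simp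
  have hAb : A = fromBlocks (jm c) A.toBlocks₁₂ 0 A.toBlocks₂₂ := by
    rw [← h11, ← h21, Matrix.fromBlocks_toBlocks]
  obtain ⟨Λ, hΛ, hT⟩ := exists_tri m (Fin m → K) (Matrix.toLin' A.toBlocks₂₂) (by simp)
  refine ⟨c, Λ, ?_, ?_⟩
  · simp only [Fintype.card_sum, Fintype.card_unit] at hm; omega
  intro κ _ _ T hTi
  obtain ⟨h1, h2⟩ := hT κ T
  constructor
  · intro μ a
    rw [← num_kron_basis b f T, ← hA, hAb]
    refine (num_fromBlocks _ _ _ T μ (a + 1)).trans ?_
    refine Nat.add_le_add (num_jm (κ := κ) c T hTi μ a) ?_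
    have := h1 μ (a + 1)
    rwa [← num_kron_basis (Pi.basisFun K (Fin m)), toMatrix_toLin'] at this
  · rw [← charpoly_kron_basis b f T, ← hA, hAb, charpoly_fromBlocks, charpoly_jm, ← h2,
      ← charpoly_kron_basis (Pi.basisFun K (Fin m)), toMatrix_toLin']

end Pool.Agent.FS77
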